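import Mathlib
import Pool.Agent.H361R2.PP.Iface

/-!
Task PP-CNT of helper361's project PP: shifts in an interval coprime to the primorial.
-/

set_option autoImplicit false

open Finset

namespace Pool.Agent.H363R2.PPCnt

open Pool.Agent.H361R2.PP

theorem card_period (W n q : ℕ) :
    ((Ico n (n + q * W)).filter (fun x => W.Coprime x)).card = q * Nat.totient W := by
  induction q with
  | zero => simp
  | succ q ih =>
    have h1 : Ico n (n + (q + 1) * W) = Ico n (n + q * W) ∪ Ico (n + q * W) (n + q * W + W) := by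
      rw [Finset.Ico_union_Ico_eq_Ico (by omega) (by omega)]
      congr 1
      ring
    have hd : Disjoint (Ico n (n + q * W)) (Ico (n + q * W) (n + q * W + W)) :=
      Finset.Ico_disjoint_Ico_consecutive _ _ _
    rw [h1, Finset.filter_union, Finset.card_union_of_disjoint
      (Finset.disjoint_filter_filter hd), ih, Nat.filter_coprime_Ico_eq_totient]
    ring

theorem card_interval (W n L : ℕ) (hW : 0 < W) :
    |((((Ico n (n + L)).filter (fun x => W.Coprime x)).card : ℕ) : ℝ) -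
      (L : ℝ) * (Nat.totient W / W)| ≤ Nat.totient W := by
  have hW' : (0 : ℝ) < W := by exact_mod_cast hW
  have hlow : (L / W) * Nat.totient W ≤
      ((Ico n (n + L)).filter (fun x => W.Coprime x)).card := by
    rw [← card_period W n (L / W)]
    apply Finset.card_le_card
    apply Finset.filter_subset_filter
    apply Finset.Ico_subset_Ico_right
    have := Nat.div_mul_le_self L W
    omega
  have hup : ((Ico n (n + L)).filter (fun x => W.Coprime x)).card ≤
      (L / W + 1) * Nat.totient W := by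
    rw [← card_period W n (L / W + 1)]
    apply Finset.card_le_card
    apply Finset.filter_subset_filter
    apply Finset.Ico_subset_Ico_right
    have := Nat.lt_div_mul_add (a := L) hW
    have e : (L / W + 1) * W = L / W * W + W := by ring
    omega
  have h1 : ((L / W : ℕ) : ℝ) ≤ (L : ℝ) / W := Nat.cast_div_le
  have h2 : (L : ℝ) / W ≤ ((L / W : ℕ) : ℝ) + 1 := by
    rw [div_le_iff₀ hW']
    have := (Nat.lt_div_mul_add (a := L) hW).le
    have h3 : (L : ℝ) ≤ ((L / W * W + W : ℕ) : ℝ) := by exact_mod_cast this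
    push_cast at h3
    linarith
  have hφ : (0 : ℝ) ≤ Nat.totient W := Nat.cast_nonneg _
  have hlow' : ((L / W : ℕ) : ℝ) * Nat.totient W ≤
      (((Ico n (n + L)).filter (fun x => W.Coprime x)).card : ℝ) := by exact_mod_cast hlow
  have hup' : (((Ico n (n + L)).filter (fun x => W.Coprime x)).card : ℝ) ≤
      (((L / W : ℕ) : ℝ) + 1) * Nat.totient W := by exact_mod_cast hup
  have e : (L : ℝ) * (Nat.totient W / W) = (L : ℝ) / W * Nat.totient W := by ring
  rw [e, abs_le]
  constructor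
  · nlinarith
  · nlinarith

theorem Wm_le (X : ℕ) (h : 1 ≤ Real.log X) : (Wm X : ℝ) ≤ Real.sqrt (Real.log X) := by
  have h0 : (0 : ℝ) ≤ Real.log (Real.log X) := Real.log_nonneg h
  have hp : (0 : ℝ) < Real.log X := by linarith
  have h1 : (Wm X : ℝ) ≤ (4 : ℝ) ^ (HH X) := by
    unfold Wm
    exact_mod_cast primorial_le_four_pow (HH X)
  have h2 : ((HH X : ℕ) : ℝ) ≤ Real.log (Real.log X) / 4 := by
    unfold HH
    exact Nat.floor_le (by positivity)
  have hlog4 : Real.log 4 ≤ 2 := by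
    have : Real.log 4 = 2 * Real.log 2 := by
      rw [show (4 : ℝ) = 2 ^ 2 by norm_num, Real.log_pow]; norm_num
    rw [this]
    have := Real.log_two_lt_d9
    linarith
  have h3 : (4 : ℝ) ^ (HH X) = Real.exp (HH X * Real.log 4) := by
    rw [mul_comm, Real.exp_mul, Real.exp_log (by norm_num), Real.rpow_natCast]
  have hlog4' : 0 ≤ Real.log 4 := Real.log_nonneg (by norm_num)
  calc (Wm X : ℝ) ≤ (4 : ℝ) ^ (HH X) := h1
    _ = Real.exp (HH X * Real.log 4) := h3
    _ ≤ Real.exp (Real.log (Real.log X) / 2) := by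
        apply Real.exp_le_exp.mpr
        have : ((HH X : ℕ) : ℝ) * Real.log 4 ≤ Real.log (Real.log X) / 4 * 2 :=
          mul_le_mul h2 hlog4 hlog4' (by positivity)
        linarith
    _ = Real.sqrt (Real.log X) := by
        rw [Real.sqrt_eq_rpow, Real.rpow_def_of_pos hp]
        congr 1
        ring

theorem Wm_pos (X : ℕ) : 0 < Wm X := by
  unfold Wm
  exact primorial_pos _

theorem tendsto_log : Filter.Tendsto (fun X : ℕ => Real.log X) Filter.atTop Filter.atTop :=
  Real.tendsto_log_atTop.comp tendsto_natCast_atTop_atTop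

theorem cnt : Cnt := by
  intro s κ Λ hs hκ hΛ
  have hev : ∀ᶠ X : ℕ in Filter.atTop, max 1 ((2 / (s * κ)) ^ 2) ≤ Real.log X :=
    tendsto_log.eventually_ge_atTop _
  obtain ⟨X₀, hX₀⟩ := Filter.eventually_atTop.mp hev
  refine ⟨X₀, fun X hX b u v hu huv hv => ?_⟩
  have hlog := hX₀ X hX
  have hlog1 : 1 ≤ Real.log X := le_trans (le_max_left _ _) hlog
  have hlog2 : (2 / (s * κ)) ^ 2 ≤ Real.log X := le_trans (le_max_right _ _) hlog
  have hv0 : 0 ≤ v := by nlinarith
  have huv' : u ≤ v := by nlinarith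
  set W := Wm X with hWdef
  have hW : 0 < W := Wm_pos X
  have hW' : (0 : ℝ) < W := by exact_mod_cast hW
  -- the set
  have hfl : ⌊u⌋₊ ≤ ⌊v⌋₊ := Nat.floor_le_floor huv'
  have hset : ((BB X b ⌊Λ * Real.log X⌋₊).filter (fun a : ℕ => u < a ∧ (a : ℝ) ≤ v)).card =
      ((Ico (b + ⌊u⌋₊ + 1) (b + ⌊u⌋₊ + 1 + (⌊v⌋₊ - ⌊u⌋₊))).filter
        (fun x => W.Coprime x)).card := by
    apply Finset.card_bij (fun a _ => b + a)
    · intro a ha
      simp only [BB, Finset.mem_filter, Finset.mem_Icc] at ha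
      obtain ⟨⟨⟨h1, h2⟩, h3⟩, h4, h5⟩ := ha
      have h6 : ⌊u⌋₊ < a := (Nat.floor_lt hu).mpr h4
      have h7 : a ≤ ⌊v⌋₊ := Nat.le_floor h5
      simp only [Finset.mem_filter, Finset.mem_Ico]
      refine ⟨⟨by omega, by omega⟩, h3.symm⟩
    · intro a _ a' _ h
      exact Nat.add_left_cancel h
    · intro x hx
      simp only [Finset.mem_filter, Finset.mem_Ico] at hx
      obtain ⟨⟨h1, h2⟩, h3⟩ := hx
      have h6 : ⌊u⌋₊ < x - b := by omega
      have h7 : x - b ≤ ⌊v⌋₊ := by omega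
      refine ⟨x - b, ?_, by omega⟩
      simp only [BB, Finset.mem_filter, Finset.mem_Icc]
      have h8 : ((x - b : ℕ) : ℝ) ≤ v := (Nat.le_floor_iff hv0).mp h7
      refine ⟨⟨⟨by omega, Nat.le_floor (h8.trans hv)⟩, ?_⟩, (Nat.floor_lt hu).mp h6, h8⟩
      have : b + (x - b) = x := by omega
      rw [this]
      exact h3.symm
  rw [hset]
  have h1 := card_interval W (b + ⌊u⌋₊ + 1) (⌊v⌋₊ - ⌊u⌋₊) hW
  have hL : |(((⌊v⌋₊ - ⌊u⌋₊ : ℕ)) : ℝ) - (v - u)| ≤ 1 := by
    rw [Nat.cast_sub hfl]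
    have a1 := Nat.floor_le hu
    have a2 := Nat.lt_floor_add_one u
    have a3 := Nat.floor_le hv0
    have a4 := Nat.lt_floor_add_one v
    rw [abs_le]
    constructor <;> linarith
  have hφ : (0 : ℝ) ≤ Nat.totient W := Nat.cast_nonneg _
  have hφW : (0 : ℝ) ≤ (Nat.totient W : ℝ) / W := by positivity
  have hφW1 : (Nat.totient W : ℝ) / W ≤ Nat.totient W := by
    rw [div_le_iff₀ hW']
    have : (1 : ℝ) ≤ W := by exact_mod_cast hW
    nlinarith
  have h2 : |(((⌊v⌋₊ - ⌊u⌋₊ : ℕ)) : ℝ) * (Nat.totient W / W) - (v - u) * (Nat.totient W / W)| ≤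
      Nat.totient W := by
    rw [← sub_mul, abs_mul, abs_of_nonneg hφW]
    calc _ ≤ 1 * ((Nat.totient W : ℝ) / W) := mul_le_mul_of_nonneg_right hL hφW
      _ ≤ _ := by rw [one_mul]; exact hφW1
  have h3 : |((((Ico (b + ⌊u⌋₊ + 1) (b + ⌊u⌋₊ + 1 + (⌊v⌋₊ - ⌊u⌋₊))).filter
        (fun x => W.Coprime x)).card : ℕ) : ℝ) - (v - u) * (Nat.totient W / W)| ≤
      2 * Nat.totient W := by
    have := abs_sub_le ((((Ico (b + ⌊u⌋₊ + 1) (b + ⌊u⌋₊ + 1 + (⌊v⌋₊ - ⌊u⌋₊))).filter
        (fun x => W.Coprime x)).card : ℕ) : ℝ)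
        ((((⌊v⌋₊ - ⌊u⌋₊ : ℕ)) : ℝ) * (Nat.totient W / W)) ((v - u) * (Nat.totient W / W))
    linarith
  refine h3.trans ?_
  -- 2 φ ≤ s (v - u) φ / W
  have hsq : Real.sqrt (Real.log X) * Real.sqrt (Real.log X) = Real.log X :=
    Real.mul_self_sqrt (by linarith)
  have hsq1 : 2 / (s * κ) ≤ Real.sqrt (Real.log X) := by
    apply Real.le_sqrt_of_sq_le
    exact hlog2
  have hWs : (W : ℝ) ≤ Real.sqrt (Real.log X) := Wm_le X hlog1
  have hsκ : 0 < s * κ := by positivity
  have key : 2 * (W : ℝ) ≤ s * (v - u) := by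
    have h5 : 2 ≤ s * κ * Real.sqrt (Real.log X) := by
      rw [div_le_iff₀ hsκ] at hsq1
      linarith
    have h6 : 2 * (W : ℝ) ≤ s * κ * Real.sqrt (Real.log X) * Real.sqrt (Real.log X) := by
      have h0 : 0 ≤ Real.sqrt (Real.log X) := Real.sqrt_nonneg _
      nlinarith
    have h7 : s * κ * Real.sqrt (Real.log X) * Real.sqrt (Real.log X) = s * (κ * Real.log X) := by
      rw [mul_assoc, hsq]; ring
    rw [h7] at h6
    have h8 : s * (κ * Real.log X) ≤ s * (v - u) := by
      apply mul_le_mul_of_nonneg_left _ hs.le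
      linarith
    linarith
  have : s * ((v - u) * ((Nat.totient W : ℝ) / W)) = (s * (v - u)) * (Nat.totient W / W) := by ring
  rw [this]
  calc 2 * (Nat.totient W : ℝ) = 2 * (W : ℝ) * (Nat.totient W / W) := by
        field_simp
    _ ≤ _ := mul_le_mul_of_nonneg_right key hφW

end Pool.Agent.H363R2.PPCnt
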