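import Pool.Agent.H412R2.CountThm

set_option autoImplicit false

/-!
The counting theorem for kernels with an additional logarithmic bound for the number of steps
(the proof is the one of `Pool.Agent.H412R2.CountThm` by helper962).
-/

namespace Pool.Agent.H363R2
open Pool.Agent.H412R2 Pool.Agent.H412R2.CountThm Finset

variable {q R : ℕ}

theorem countS_aux (κ : Ker q R) (hq : 0 < q) (σ : ℝ) (hσ : 0 < σ)
    (hω : ∀ x : ℤ, ¬ (q : ℤ) ∣ x → (q : ℝ) ^ R < 2 ^ (κ.S x))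
    (hoff : ∀ x b : ℤ, ¬ (q : ℤ) ∣ x → b ∈ κ.K x →
      |(q : ℤ) ^ R * b - 2 ^ (κ.S x) * x| ≤ 2 ^ κ.Smax * (q : ℤ) ^ R)
    (N : ℕ) (hN : 1 ≤ N)
    (hZ : ∀ x : ℤ, ¬ (q : ℤ) ∣ x → 1 ≤ ZZ κ σ N x) :
    ∀ a : ℤ, ¬ (q : ℤ) ∣ a → ∃ c C B₀ : ℝ, 0 < c ∧ 0 < C ∧ 1 ≤ B₀ ∧ ∀ B : ℝ, B₀ ≤ B →
      ∃ F : Finset ℤ,
      (∀ z ∈ F, (|z| : ℝ) ≤ B ∧ ∃ j s : ℕ, (j : ℝ) ≤ C * (1 + Real.log B) ∧
        Path κ.S κ.K j s a z) ∧
        c * B ^ σ ≤ F.card * (1 + Real.log B) ^ 2 := by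
  classical
  intro a ha
  have hqR : (0 : ℝ) < (q : ℝ) ^ R := by positivity
  have hqR1 : (1 : ℝ) ≤ (q : ℝ) ^ R := one_le_pow₀ (by exact_mod_cast hq)
  set w : ℝ := 1 + 1 / (q : ℝ) ^ R with hwdef
  have hw : 1 < w := by
    rw [hwdef]
    have : 0 < 1 / (q : ℝ) ^ R := by positivity
    linarith
  set W : ℝ := 2 ^ κ.Smax with hWdef
  have hW : 1 ≤ W := one_le_pow₀ (by norm_num)
  have hlow : ∀ x : ℤ, ¬ (q : ℤ) ∣ x → w ≤ om κ x := by
    intro x hx
    have h3 : (q : ℝ) ^ R + 1 ≤ 2 ^ (κ.S x) := by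
      have := hω x hx
      have h4 : q ^ R < 2 ^ (κ.S x) := by exact_mod_cast this
      exact_mod_cast h4
    rw [om, le_div_iff₀ hqR, hwdef, add_mul, div_mul_cancel₀ _ hqR.ne']
    linarith
  have hup : ∀ x : ℤ, ¬ (q : ℤ) ∣ x → om κ x ≤ W := by
    intro x hx
    rw [om, div_le_iff₀ hqR]
    calc (2 : ℝ) ^ (κ.S x) ≤ 2 ^ κ.Smax := pow_le_pow_right₀ (by norm_num) (κ.hSmax x)
      _ ≤ W * (q : ℝ) ^ R := le_mul_of_one_le_right (by positivity) hqR1
  set A : ℝ := (|a| : ℝ) + 2 ^ κ.Smax * (q : ℝ) ^ R with hAdef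
  have hA : 1 ≤ A := by
    have h1 : 1 ≤ W * (q : ℝ) ^ R := one_le_mul_of_one_le_of_one_le hW hqR1
    have h2 : (0 : ℝ) ≤ |(a : ℝ)| := abs_nonneg _
    rw [hAdef]
    linarith
  have hlw : 0 < Real.log w := Real.log_pos hw
  have hNpos : (0 : ℝ) < N := by exact_mod_cast hN
  set C1 : ℝ := 2 + 1 / (N * Real.log w) with hC1
  have hC1pos : 0 < C1 := by positivity
  set C2 : ℝ := N * κ.Smax * C1 + 1 with hC2
  have hC2pos : 0 < C2 := by positivity
  have hAW : 0 < A * W ^ N := by positivity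
  refine ⟨1 / ((A * W ^ N) ^ σ * (C1 * C2)), N * C1, A, by positivity, by positivity, hA, ?_⟩
  intro B hB
  have hB0 : 0 < B := by linarith
  have hB1 : 1 ≤ B := hA.trans hB
  have hlB : 0 ≤ Real.log B := Real.log_nonneg hB1
  set B' : ℝ := B / A with hB'
  have hB'1 : 1 ≤ B' := by rw [hB', le_div_iff₀ (by linarith)]; linarith
  have hB'B : B' ≤ B := div_le_self hB0.le hA
  have hlB' : 0 ≤ Real.log B' := Real.log_nonneg hB'1
  set M : ℕ := ⌈Real.log B' / (N * Real.log w)⌉₊ with hM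
  have hM1 : B' ≤ (w ^ N) ^ M := by
    have h1 : Real.log B' / (N * Real.log w) ≤ M := Nat.le_ceil _
    rw [div_le_iff₀ (by positivity)] at h1
    have h2 : Real.log B' ≤ Real.log ((w ^ N) ^ M) := by
      rw [Real.log_pow, Real.log_pow]
      exact h1
    exact (Real.log_le_log_iff (by linarith) (by positivity)).1 h2
  have hM2 : (M : ℝ) + 1 ≤ C1 * (1 + Real.log B) := by
    have h1 : (M : ℝ) < Real.log B' / (N * Real.log w) + 1 := Nat.ceil_lt_add_one (by positivity)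
    have h2 : Real.log B' ≤ Real.log B := Real.log_le_log (by linarith) hB'B
    have h3 : Real.log B' / (N * Real.log w) ≤ Real.log B / (N * Real.log w) := by gcongr
    have h4 : Real.log B / (N * Real.log w) = 1 / (N * Real.log w) * Real.log B := by ring
    have h5 : 0 ≤ 1 / (N * Real.log w) := by positivity
    rw [hC1]
    nlinarith
  have hmain := main_lower κ hq hw hlow hup hW hσ N hZ M a ha B' hB'1 hM1
  set F : Finset ℤ := (range (M + 1)).biUnion fun m => (range (N * m * κ.Smax + 1)).biUnion fun s =>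
    if (2 : ℝ) ^ s ≤ B' * (q : ℝ) ^ (N * m * R) then En κ (N * m) s a else ∅ with hF
  refine ⟨F, ?_, ?_⟩
  · intro z hz
    rw [hF] at hz
    simp only [mem_biUnion] at hz
    obtain ⟨m, hm, s, hs, hz⟩ := hz
    split_ifs at hz with hcond
    · rw [mem_En] at hz
      refine ⟨?_, N * m, s, ?_, hz⟩
      rotate_left
      · have hm' : m ≤ M := by rw [mem_range] at hm; omega
        have hm'' : (m : ℝ) ≤ M := by exact_mod_cast hm'
        push_cast
        calc (N : ℝ) * m ≤ N * (C1 * (1 + Real.log B)) := by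
              apply mul_le_mul_of_nonneg_left _ hNpos.le
              linarith
          _ = N * C1 * (1 + Real.log B) := by ring
      have h1 := node_size κ hq hω hoff (N * m) s a z ha hz
      have h2 : (2 : ℝ) ^ s / (q : ℝ) ^ (N * m * R) ≤ B' := by
        rw [div_le_iff₀ (by positivity)]
        exact hcond
      have h3 : (2 : ℝ) ^ s / (q : ℝ) ^ (N * m * R) * A ≤ B' * A :=
        mul_le_mul_of_nonneg_right h2 (by linarith)
      have h4 : B' * A = B := by rw [hB']; field_simp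
      have h5 : (0 : ℝ) ≤ 2 ^ κ.Smax * (q : ℝ) ^ R := by positivity
      have h6 : (|z| : ℝ) + 2 ^ κ.Smax * (q : ℝ) ^ R ≤ B := by
        rw [← h4]
        exact h1.trans h3
      linarith
    · simp at hz
  · have hup2 : ∑ m ∈ range (M + 1), EE κ (N * m) a B' ≤ ((M : ℝ) + 1) *
        ((N * M * κ.Smax + 1) * F.card) := by
      have h1 : ∀ m ∈ range (M + 1), EE κ (N * m) a B' ≤
          (N * M * κ.Smax + 1) * F.card := by
        intro m hm
        have hm' : m ≤ M := by rw [mem_range] at hm; omega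
        have h2 : ∀ s ∈ range (N * m * κ.Smax + 1),
            (if (2 : ℝ) ^ s ≤ B' * (q : ℝ) ^ (N * m * R) then ((En κ (N * m) s a).card : ℝ) else 0)
              ≤ (F.card : ℝ) := by
          intro s hs
          split_ifs with hcond
          · have hsub : En κ (N * m) s a ⊆ F := by
              intro z hz
              rw [hF]
              simp only [mem_biUnion]
              refine ⟨m, hm, s, hs, ?_⟩
              rw [if_pos hcond]
              exact hz
            exact_mod_cast Finset.card_le_card hsub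
          · positivity
        calc EE κ (N * m) a B' ≤ ∑ s ∈ range (N * m * κ.Smax + 1), (F.card : ℝ) := by
              rw [EE]
              exact Finset.sum_le_sum h2
          _ = ((N * m * κ.Smax + 1 : ℕ) : ℝ) * F.card := by
              rw [Finset.sum_const, card_range, nsmul_eq_mul]
          _ ≤ (N * M * κ.Smax + 1) * F.card := by
              refine mul_le_mul_of_nonneg_right ?_ (by positivity)
              have h3 : N * m * κ.Smax + 1 ≤ N * M * κ.Smax + 1 := by gcongr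
              exact_mod_cast h3
      calc ∑ m ∈ range (M + 1), EE κ (N * m) a B' ≤
            ∑ m ∈ range (M + 1), ((N * M * κ.Smax + 1) * F.card : ℝ) := Finset.sum_le_sum h1
        _ = ((M : ℝ) + 1) * ((N * M * κ.Smax + 1) * F.card) := by
            rw [Finset.sum_const, card_range, nsmul_eq_mul]
            push_cast
            ring
    have hC : ((N : ℝ) * M * κ.Smax + 1) ≤ C2 * (1 + Real.log B) := by
      have h1 : (M : ℝ) ≤ C1 * (1 + Real.log B) := by linarith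
      have h2 : (N : ℝ) * κ.Smax * M ≤ N * κ.Smax * (C1 * (1 + Real.log B)) :=
        mul_le_mul_of_nonneg_left h1 (by positivity)
      rw [hC2]
      nlinarith
    have h7 : ((M : ℝ) + 1) * ((N * M * κ.Smax + 1) * F.card) ≤
        (C1 * (1 + Real.log B)) * ((C2 * (1 + Real.log B)) * F.card) := by
      gcongr
    have h8 : (B' / W ^ N) ^ σ = B ^ σ / (A * W ^ N) ^ σ := by
      rw [hB', div_div, Real.div_rpow hB0.le hAW.le]
    have h9 : B ^ σ / (A * W ^ N) ^ σ ≤ (C1 * C2) * (F.card * (1 + Real.log B) ^ 2) := by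
      rw [← h8]
      refine (hmain.trans (hup2.trans h7)).trans (le_of_eq (by ring))
    have h10 : 0 < (A * W ^ N) ^ σ := by positivity
    rw [div_le_iff₀ h10] at h9
    rw [one_div, inv_mul_eq_div, div_le_iff₀ (by positivity)]
    linarith


theorem countS_of_positive {q R : ℕ} (κ : Ker q R) (hq : q.Prime) (σ : ℝ) (hσ : 0 < σ)
    (hω : ∀ x : ℤ, ¬ (q : ℤ) ∣ x → (q : ℝ) ^ R < 2 ^ (κ.S x))
    (hoff : ∀ x b : ℤ, ¬ (q : ℤ) ∣ x → b ∈ κ.K x →
      |(q : ℤ) ^ R * b - 2 ^ (κ.S x) * x| ≤ 2 ^ κ.Smax * (q : ℤ) ^ R)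
    (hpos : ∀ r ∈ Finset.Ico 1 q,
      0 < ∑ x ∈ (Finset.range (q ^ (R + 1))).filter (fun x => x % q = r),
        (Real.log ((κ.K (x : ℤ)).card) - σ * Real.log (2 ^ (κ.S (x : ℤ)) / (q : ℝ) ^ R)))
    (hpositive : ∀ g : ℤ → ℝ,
      (∀ x y : ℤ, ¬ (q : ℤ) ∣ x → g (x + (q : ℤ) ^ (R + 1) * y) = g x) →
      (∀ r ∈ Finset.Ico 1 q,
        0 < ∑ x ∈ (Finset.range (q ^ (R + 1))).filter (fun x => x % q = r), g (x : ℤ)) →
      ∃ N : ℕ, 1 ≤ N ∧ ∀ x : ℤ, ¬ (q : ℤ) ∣ x → 0 < ∑ i ∈ Finset.range N, (κ.P)^[i] g x) :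
    ∀ a : ℤ, ¬ (q : ℤ) ∣ a → ∃ c C B₀ : ℝ, 0 < c ∧ 0 < C ∧ 1 ≤ B₀ ∧ ∀ B : ℝ, B₀ ≤ B →
      ∃ F : Finset ℤ,
      (∀ z ∈ F, (|z| : ℝ) ≤ B ∧ ∃ j s : ℕ, (j : ℝ) ≤ C * (1 + Real.log B) ∧
        Path κ.S κ.K j s a z) ∧
        c * B ^ σ ≤ F.card * (1 + Real.log B) ^ 2 := by
  set g : ℤ → ℝ := fun x => Real.log ((κ.K x).card) - σ * Real.log (2 ^ (κ.S x) / (q : ℝ) ^ R)
    with hgdef
  have hper : ∀ x y : ℤ, ¬ (q : ℤ) ∣ x → g (x + (q : ℤ) ^ (R + 1) * y) = g x := by
    intro x y hx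
    have hcard : (κ.K (x + (q : ℤ) ^ (R + 1) * y)).card = (κ.K x).card := by
      have himg : κ.K (x + (q : ℤ) ^ (R + 1) * y) =
          (κ.K x).image (fun b => b + 2 ^ (κ.S x) * ((q : ℤ) * y)) := by
        ext z
        rw [Finset.mem_image]
        constructor
        · intro hz
          refine ⟨z - 2 ^ (κ.S x) * ((q : ℤ) * y), ?_, by ring⟩
          rw [← κ.hK x y _ hx]
          simpa using hz
        · rintro ⟨b, hb, rfl⟩
          exact (κ.hK x y b hx).2 hb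
      rw [himg, Finset.card_image_of_injective]
      intro b b' h
      simpa using h
    simp only [hgdef]
    rw [hcard, κ.hS x y hx]
  obtain ⟨N, hN, hNpos⟩ := hpositive g hper hpos
  refine countS_aux κ hq.pos σ hσ hω hoff N hN ?_
  intro x hx
  obtain ⟨h1, h2⟩ := CountThm.log_ZZ κ hq.pos σ g (fun x => rfl) N x hx
  have h3 : 0 < Real.log (CountThm.ZZ κ σ N x) := lt_of_lt_of_le (hNpos x hx) h2
  exact ((Real.log_pos_iff h1.le).1 h3).le


end Pool.Agent.H363R2
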