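import Pool.Agent.H363R2.SharpCor

set_option autoImplicit false

/-! The number of odd steps, and odd starting points. -/

namespace Pool.Agent.H363R2
open Finset Filter

/-- number of odd steps among the first `k` -/
def oc : ℕ → ℕ → ℕ
  | 0, _ => 0
  | k + 1, n => n % 2 + oc k (TN n)

theorem TN_even (m : ℕ) : TN (2 * m) = m := by unfold TN; simp
theorem TN_odd {m : ℕ} (h : m % 2 = 1) : TN m = (3 * m + 1) / 2 := by
  unfold TN; rw [if_neg (by omega)]

theorem oc_add (m n : ℕ) : ∀ z : ℕ, oc (m + n) z = oc m z + oc n (TN^[m] z) := by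
  induction m with
  | zero => intro z; simp [oc]
  | succ m ih =>
    intro z
    rw [show m + 1 + n = (m + n) + 1 by ring, oc, oc, ih, Function.iterate_succ_apply, add_assoc]

theorem oc_upper (t : ℕ) : ∀ n : ℕ, 3 ^ oc t n * n ≤ 2 ^ t * TN^[t] n := by
  induction t with
  | zero => intro n; simp [oc]
  | succ t ih =>
    intro n
    have h1 := ih (TN n)
    have h2 : 3 ^ (n % 2) * n ≤ 2 * TN n := by
      rcases Nat.mod_two_eq_zero_or_one n with h | h
      · obtain ⟨m, rfl⟩ : ∃ m, n = 2 * m := ⟨n / 2, by omega⟩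
        rw [TN_even, h]; omega
      · rw [TN_odd h, h]; omega
    rw [Function.iterate_succ_apply, oc]
    calc 3 ^ (n % 2 + oc t (TN n)) * n = 3 ^ oc t (TN n) * (3 ^ (n % 2) * n) := by
          rw [pow_add]; ring
      _ ≤ 3 ^ oc t (TN n) * (2 * TN n) := Nat.mul_le_mul_left _ h2
      _ = 2 * (3 ^ oc t (TN n) * TN n) := by ring
      _ ≤ 2 * (2 ^ t * TN^[t] (TN n)) := Nat.mul_le_mul_left _ h1
      _ = _ := by ring

theorem oc_lower (t : ℕ) : ∀ n : ℕ, 1 ≤ n → t * Real.log 2 + Real.log (TN^[t] n : ℕ) ≤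
    oc t n * Real.log 3 + Real.log n + ∑ j ∈ range t, 1 / (3 * ((TN^[j] n : ℕ) : ℝ)) := by
  induction t with
  | zero => intro n _; simp [oc]
  | succ t ih =>
    intro n hn
    have hT : 1 ≤ TN n := (TN_le 1 n hn).2
    have h1 := ih (TN n) hT
    have hnR : (0 : ℝ) < n := by exact_mod_cast hn
    have hTR : (0 : ℝ) < (TN n : ℕ) := by exact_mod_cast hT
    have h2 : Real.log 2 + Real.log (TN n : ℕ) ≤
        ((n % 2 : ℕ) : ℝ) * Real.log 3 + Real.log n + 1 / (3 * (n : ℝ)) := by
      rw [← Real.log_mul (by norm_num) hTR.ne']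
      rcases Nat.mod_two_eq_zero_or_one n with h | h
      · obtain ⟨m, rfl⟩ : ∃ m, n = 2 * m := ⟨n / 2, by omega⟩
        rw [TN_even, h]
        push_cast
        have : (0 : ℝ) ≤ 1 / (3 * (2 * (m : ℝ))) := by positivity
        linarith
      · have e : (2 : ℝ) * (TN n : ℕ) = 3 * n + 1 := by
          have : 2 * TN n = 3 * n + 1 := by rw [TN_odd h]; omega
          exact_mod_cast this
        rw [e, h]
        have e2 : (3 : ℝ) * n + 1 = 3 * n * (1 + 1 / (3 * (n : ℝ))) := by field_simp
        rw [e2, Real.log_mul (by positivity) (by positivity), Real.log_mul (by norm_num) hnR.ne']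
        have h3 : Real.log (1 + 1 / (3 * (n : ℝ))) ≤ 1 / (3 * (n : ℝ)) := by
          have := Real.log_le_sub_one_of_pos (show (0 : ℝ) < 1 + 1 / (3 * (n : ℝ)) by positivity)
          linarith
        push_cast
        linarith
    rw [Finset.sum_range_succ', Function.iterate_succ_apply, oc]
    simp only [Function.iterate_succ_apply, Function.iterate_zero, id]
    push_cast
    linarith

theorem sum_recip {t n : ℕ} (h1 : TN^[t] n = 1) (h2 : ∀ j < t, TN^[j] n ≠ 1) (hn : 1 ≤ n)
    {K : ℕ} (hK : 1 ≤ K) :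
    ∑ j ∈ range t, 1 / (3 * ((TN^[j] n : ℕ) : ℝ)) ≤ t / (3 * K) + K / 3 := by
  have hKR : (0 : ℝ) < K := by exact_mod_cast hK
  have hinj : Set.InjOn (fun j => TN^[j] n) (range t : Set ℕ) := by
    have key : ∀ i j : ℕ, i < j → j < t → TN^[i] n = TN^[j] n → False := by
      intro i j hij hj h
      apply h2 (t - (j - i)) (by omega)
      rw [show t - (j - i) = (t - j) + i by omega, Function.iterate_add_apply, h,
        ← Function.iterate_add_apply, show t - j + j = t by omega, h1]
    intro i hi j hj h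
    simp only [Finset.coe_range, Set.mem_Iio] at hi hj
    rcases lt_trichotomy i j with h' | h' | h'
    · exact (key i j h' hj h).elim
    · exact h'
    · exact (key j i h' hi h.symm).elim
  rw [← Finset.sum_filter_add_sum_filter_not (range t) (fun j => K ≤ TN^[j] n)]
  apply add_le_add
  · calc ∑ j ∈ (range t).filter (fun j => K ≤ TN^[j] n), 1 / (3 * ((TN^[j] n : ℕ) : ℝ))
        ≤ ∑ j ∈ (range t).filter (fun j => K ≤ TN^[j] n), 1 / (3 * (K : ℝ)) := by
          apply Finset.sum_le_sum
          intro j hj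
          have h3 : (K : ℝ) ≤ ((TN^[j] n : ℕ) : ℝ) := by exact_mod_cast (Finset.mem_filter.1 hj).2
          apply one_div_le_one_div_of_le (by positivity)
          linarith
      _ = ((range t).filter (fun j => K ≤ TN^[j] n)).card * (1 / (3 * (K : ℝ))) := by
          rw [Finset.sum_const, nsmul_eq_mul]
      _ ≤ t * (1 / (3 * (K : ℝ))) := by
          apply mul_le_mul_of_nonneg_right _ (by positivity)
          have := Finset.card_filter_le (range t) (fun j => K ≤ TN^[j] n)
          rw [Finset.card_range] at this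
          exact_mod_cast this
      _ = _ := by ring
  · calc ∑ j ∈ (range t).filter (fun j => ¬ K ≤ TN^[j] n), 1 / (3 * ((TN^[j] n : ℕ) : ℝ))
        ≤ ∑ j ∈ (range t).filter (fun j => ¬ K ≤ TN^[j] n), (1 / 3 : ℝ) := by
          apply Finset.sum_le_sum
          intro j _
          have h3 : (1 : ℝ) ≤ ((TN^[j] n : ℕ) : ℝ) := by exact_mod_cast (TN_le j n hn).2
          apply one_div_le_one_div_of_le (by norm_num)
          linarith
      _ = ((range t).filter (fun j => ¬ K ≤ TN^[j] n)).card * (1 / 3 : ℝ) := by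
          rw [Finset.sum_const, nsmul_eq_mul]
      _ ≤ K * (1 / 3 : ℝ) := by
          apply mul_le_mul_of_nonneg_right _ (by norm_num)
          have : ((range t).filter (fun j => ¬ K ≤ TN^[j] n)).card ≤ (range K).card := by
            apply Finset.card_le_card_of_injOn (fun j => TN^[j] n)
            · intro j hj
              have := (Finset.mem_filter.1 hj).2
              simp only [Finset.coe_range, Set.mem_Iio]
              omega
            · exact hinj.mono (by
                intro j hj
                exact Finset.mem_coe.2 (Finset.mem_filter.1 (Finset.mem_coe.1 hj)).1)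
          rw [Finset.card_range] at this
          exact_mod_cast this
      _ = _ := by ring

/-- the number of odd steps before the first hit of `1` -/
theorem oc_bounds {t n : ℕ} (h1 : TN^[t] n = 1) (h2 : ∀ j < t, TN^[j] n ≠ 1) (hn : 1 ≤ n)
    {K : ℕ} (hK : 1 ≤ K) :
    oc t n * Real.log 3 ≤ t * Real.log 2 - Real.log n ∧
    t * Real.log 2 - Real.log n - (t / (3 * K) + K / 3) ≤ oc t n * Real.log 3 := by
  have hnR : (0 : ℝ) < n := by exact_mod_cast hn
  constructor
  · have h3 := oc_upper t n
    rw [h1, mul_one] at h3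
    have h4 : (3 : ℝ) ^ oc t n * n ≤ 2 ^ t := by exact_mod_cast h3
    have h5 := Real.log_le_log (by positivity) h4
    rw [Real.log_mul (by positivity) hnR.ne', Real.log_pow, Real.log_pow] at h5
    linarith
  · have h3 := oc_lower t n hn
    rw [h1] at h3
    have h4 := sum_recip h1 h2 hn hK
    simp only [Nat.cast_one, Real.log_one, add_zero] at h3
    linarith

/-! ### halving -/

theorem TN_halve (e q : ℕ) : TN^[e] (2 ^ e * q) = q ∧ oc e (2 ^ e * q) = 0 := by
  induction e with
  | zero => simp [oc]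
  | succ e ih =>
    have h2 : 2 ^ (e + 1) * q = 2 * (2 ^ e * q) := by ring
    rw [Function.iterate_succ_apply, oc, h2, TN_even]
    refine ⟨ih.1, ?_⟩
    rw [ih.2]; omega

theorem TN_halve_part (e q j : ℕ) (hj : j ≤ e) : TN^[j] (2 ^ e * q) = 2 ^ (e - j) * q := by
  obtain ⟨d, rfl⟩ := Nat.exists_eq_add_of_le hj
  rw [pow_add, mul_assoc, (TN_halve j _).1]
  congr 2
  omega

/-- passing to the odd part -/
theorem odd_part {t a m : ℕ} (h1 : TN^[t] (2 ^ a * m) = 1) (h2 : ∀ j < t, TN^[j] (2 ^ a * m) ≠ 1)
    (hm : 1 ≤ m) : a ≤ t ∧ TN^[t - a] m = 1 ∧ ∀ j < t - a, TN^[j] m ≠ 1 := by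
  have hat : a ≤ t := by
    by_contra h
    rw [not_le] at h
    rw [TN_halve_part a m t h.le] at h1
    have h3 : 2 ≤ 2 ^ (a - t) := by
      calc 2 = 2 ^ 1 := by norm_num
        _ ≤ 2 ^ (a - t) := Nat.pow_le_pow_right (by norm_num) (by omega)
    nlinarith
  have key : ∀ j, TN^[j] m = TN^[j + a] (2 ^ a * m) := by
    intro j
    rw [Function.iterate_add_apply, (TN_halve a m).1]
  refine ⟨hat, ?_, ?_⟩
  · rw [key, show t - a + a = t by omega, h1]
  · intro j hj
    rw [key]
    exact h2 _ (by omega)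

end Pool.Agent.H363R2
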