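import Pool.Agent.H363R2.Height

set_option autoImplicit false

/-! Odd numbers; the map `C`. -/

namespace Pool.Agent.H363R2
open Finset Filter

theorem card_mult (X : ℝ) (hX : 0 ≤ X) (d : ℕ) (hd : 1 ≤ d) (S : Finset ℕ)
    (hS : ∀ n ∈ S, 1 ≤ n ∧ (n : ℝ) ≤ X ∧ d ∣ n) : (S.card : ℝ) ≤ X / d := by
  have hdR : (0 : ℝ) < d := by exact_mod_cast hd
  have h1 : S.card ≤ (Finset.Icc 1 ⌊X / d⌋₊).card := by
    apply Finset.card_le_card_of_injOn (fun n => n / d)
    · intro n hn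
      obtain ⟨h1, h2, q, rfl⟩ := hS n hn
      have hq : 1 ≤ q := Nat.pos_of_ne_zero (by rintro rfl; simp at h1)
      simp only [Finset.coe_Icc, Set.mem_Icc]
      rw [Nat.mul_div_cancel_left _ (by omega)]
      refine ⟨hq, Nat.le_floor ?_⟩
      rw [le_div_iff₀ hdR]
      push_cast at h2
      linarith
    · intro n hn m hm h
      obtain ⟨h1, h2, q, rfl⟩ := hS n hn
      obtain ⟨h3, h4, q', rfl⟩ := hS m hm
      simp only [Nat.mul_div_cancel_left _ (show 0 < d by omega)] at h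
      rw [h]
  rw [Nat.card_Icc, Nat.add_sub_cancel] at h1
  calc (S.card : ℝ) ≤ (⌊X / d⌋₊ : ℝ) := by exact_mod_cast h1
    _ ≤ X / d := Nat.floor_le (by positivity)

/-- the sharp theorem for odd numbers -/
theorem sharp_odd (ε : ℝ) (hε : 0 < ε) : ∃ c : ℝ, 0 < c ∧ ∃ X0 : ℝ, ∀ X : ℝ, X0 ≤ X →
    ∃ S : Finset ℕ, (∀ n ∈ S, 1 < n ∧ Odd n ∧ c * X ≤ n ∧ (n : ℝ) ≤ X ∧ ∃ t : ℕ, TN^[t] n = 1 ∧
      (∀ j < t, TN^[j] n ≠ 1) ∧
      |(t : ℝ) - 2 / Real.log (4 / 3) * Real.log n| ≤ ε * Real.log n) ∧ c * X ≤ S.card := by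
  classical
  obtain ⟨c, hc, X0, h⟩ := sharp (ε / 4) (by positivity)
  have hμ : 0 < Real.log (4 / 3) := Real.log_pos (by norm_num)
  set γ : ℝ := 2 / Real.log (4 / 3) with hγ
  have hγ0 : 0 < γ := by positivity
  obtain ⟨A, hA⟩ := pow_unbounded_of_one_lt (2 / c) (show (1 : ℝ) < 2 by norm_num)
  have hA1 : (0 : ℝ) < 2 ^ A := by positivity
  have hAc : 2 < c * 2 ^ A := by
    rw [div_lt_iff₀ hc] at hA; linarith
  set c' : ℝ := min (c / (2 * (A + 1))) (c / 2 ^ A) with hc'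
  have hc'0 : 0 < c' := lt_min (by positivity) (by positivity)
  -- threshold
  set R : ℝ := (A * Real.log 2) * 2 + (4 / ε) * (A + γ * (A * Real.log 2)) + 1 with hR
  refine ⟨c', hc'0, max (max X0 1) (Real.exp R / c'), fun X hX => ?_⟩
  have hX0 : X0 ≤ X := ((le_max_left _ _).trans (le_max_left _ _)).trans hX
  have hX1 : 1 ≤ X := ((le_max_right _ _).trans (le_max_left _ _)).trans hX
  have hX2 : Real.exp R ≤ c' * X := by
    have := (le_max_right _ _).trans hX
    rw [div_le_iff₀ hc'0] at this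
    linarith
  have hXpos : 0 < X := by linarith
  obtain ⟨S, hS, hcard⟩ := h X hX0
  set S1 := S.filter (fun n => ¬ 2 ^ A ∣ n) with hS1
  have hbad : ((S.filter (fun n => 2 ^ A ∣ n)).card : ℝ) ≤ X / 2 ^ A := by
    have := card_mult X hXpos.le (2 ^ A) Nat.one_le_two_pow (S.filter (fun n => 2 ^ A ∣ n)) (by
      intro n hn
      obtain ⟨h1, h2⟩ := Finset.mem_filter.1 hn
      obtain ⟨h3, h4, h5, _⟩ := hS n h1
      exact ⟨h3, h5, h2⟩)
    push_cast at this
    exact this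
  have hS1card : c / 2 * X ≤ S1.card := by
    have h1 := Finset.card_filter_add_card_filter_not (s := S) (fun n => 2 ^ A ∣ n)
    have h2 : (S.card : ℝ) = ((S.filter (fun n => 2 ^ A ∣ n)).card : ℝ) + (S1.card : ℝ) := by
      rw [hS1]; exact_mod_cast h1.symm
    have h3 : X / 2 ^ A ≤ c / 2 * X := by
      rw [div_le_iff₀ hA1]
      nlinarith
    linarith
  -- the odd parts
  set φ : ℕ → ℕ := fun n => n / 2 ^ padicValNat 2 n with hφ
  have hfac : ∀ n, n ∈ S1 → ∃ a m : ℕ, a < A ∧ Odd m ∧ n = 2 ^ a * m ∧ φ n = m := by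
    intro n hn
    obtain ⟨h1, h2⟩ := Finset.mem_filter.1 hn
    obtain ⟨h3, _⟩ := hS n h1
    obtain ⟨e, q, hq, he⟩ := Nat.exists_eq_two_pow_mul_odd (n := n) (by omega)
    have hv : padicValNat 2 n = e := by
      rw [he, padicValNat.mul (by positivity) (by rintro rfl; simp at hq), padicValNat.prime_pow,
        padicValNat.eq_zero_of_not_dvd (by rw [← even_iff_two_dvd, Nat.not_even_iff_odd]; exact hq)]
      rfl
    refine ⟨e, q, ?_, hq, he, ?_⟩
    · by_contra hAe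
      rw [not_lt] at hAe
      apply h2
      rw [he]
      exact (pow_dvd_pow 2 hAe).mul_right q
    · simp only [hφ]
      rw [hv]
      conv_lhs => rw [he]
      exact Nat.mul_div_cancel_left _ (by positivity)
  have himg : (S1.card : ℝ) ≤ (A + 1) * ((S1.image φ).card : ℝ) := by
    have h1 : S1.card ≤ A * (S1.image φ).card := by
      apply Finset.card_le_mul_card_image
      intro m hm
      have h2 : (S1.filter (fun n => φ n = m)).card ≤ ((range A).image (fun a => 2 ^ a * m)).card := by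
        apply Finset.card_le_card
        intro n hn
        obtain ⟨h3, h4⟩ := Finset.mem_filter.1 hn
        obtain ⟨a, m', h5, _, h7, h8⟩ := hfac n h3
        rw [Finset.mem_image]
        refine ⟨a, Finset.mem_range.2 h5, ?_⟩
        rw [← h4, h8, ← h7]
      refine h2.trans (Finset.card_image_le.trans ?_)
      rw [Finset.card_range]
    have h2 : (S1.card : ℝ) ≤ A * ((S1.image φ).card : ℝ) := by exact_mod_cast h1
    have h3 : (0 : ℝ) ≤ ((S1.image φ).card : ℝ) := by positivity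
    linarith
  refine ⟨S1.image φ, ?_, ?_⟩
  · intro m hm
    obtain ⟨n, hn, rfl⟩ := Finset.mem_image.1 hm
    obtain ⟨a, m, haA, hmo, hnm, hφm⟩ := hfac n hn
    rw [hφm]
    obtain ⟨h1, h2, h3, t, h4, h5, h6, _⟩ := hS n (Finset.mem_filter.1 hn).1
    have hm1 : 1 ≤ m := hmo.pos
    rw [hnm] at h4 h5
    obtain ⟨hat, ht1, ht2⟩ := odd_part h4 h5 hm1
    have hmR : (0 : ℝ) < m := by exact_mod_cast hm1
    have hnR : (0 : ℝ) < n := by exact_mod_cast h1
    have hnmR : (n : ℝ) = 2 ^ a * m := by exact_mod_cast hnm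
    have hpaA : (2 : ℝ) ^ a ≤ 2 ^ A := pow_le_pow_right₀ (by norm_num) haA.le
    have hpa1 : (1 : ℝ) ≤ 2 ^ a := one_le_pow₀ (by norm_num)
    have hlow : c' * X ≤ m := by
      have g1 : c' * 2 ^ A ≤ c := by
        calc c' * 2 ^ A ≤ c / 2 ^ A * 2 ^ A := mul_le_mul_of_nonneg_right (min_le_right _ _) hA1.le
          _ = c := by field_simp
      have g2 : c * X ≤ 2 ^ A * m := by
        calc c * X ≤ n := h2
          _ = 2 ^ a * m := hnmR
          _ ≤ 2 ^ A * m := mul_le_mul_of_nonneg_right hpaA hmR.le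
      have g3 : (c' * X) * 2 ^ A ≤ m * 2 ^ A := by nlinarith
      exact le_of_mul_le_mul_right g3 hA1
    have hlogm : R ≤ Real.log m := by
      rw [Real.le_log_iff_exp_le hmR]
      exact hX2.trans hlow
    have hlog2 : 0 < Real.log 2 := Real.log_pos (by norm_num)
    have hR1 : 1 ≤ R := by
      have : 0 ≤ (A * Real.log 2) * 2 + (4 / ε) * (A + γ * (A * Real.log 2)) := by positivity
      rw [hR]; linarith
    have hlogn : Real.log n = a * Real.log 2 + Real.log m := by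
      rw [hnmR, Real.log_mul (by positivity) hmR.ne', Real.log_pow]
    have haR : (a : ℝ) ≤ A := by exact_mod_cast haA.le
    have hal : (a : ℝ) * Real.log 2 ≤ A * Real.log 2 := mul_le_mul_of_nonneg_right haR hlog2.le
    have hal0 : 0 ≤ (a : ℝ) * Real.log 2 := by positivity
    have hmne : m ≠ 1 := by
      rintro rfl
      simp only [Nat.cast_one, Real.log_one] at hlogm
      linarith
    refine ⟨by omega, hmo, hlow, ?_, t - a, ht1, ht2, ?_⟩
    · calc (m : ℝ) ≤ 2 ^ a * m := le_mul_of_one_le_left hmR.le hpa1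
        _ = n := hnmR.symm
        _ ≤ X := h3
    · rw [Nat.cast_sub hat]
      have e : (t : ℝ) - a - γ * Real.log m = (t - γ * Real.log n) + (γ * (a * Real.log 2) - a) := by
        rw [hlogn]; ring
      rw [e]
      have g0 : 0 ≤ (4 / ε) * (A + γ * (A * Real.log 2)) := by positivity
      have g00 : 0 ≤ A * Real.log 2 := by positivity
      have g1 : Real.log n ≤ 2 * Real.log m := by
        rw [hlogn]
        have : A * Real.log 2 ≤ R := by rw [hR]; linarith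
        linarith
      have g2 : |γ * (a * Real.log 2) - a| ≤ A + γ * (A * Real.log 2) := by
        rw [abs_le]
        have g3 : γ * (a * Real.log 2) ≤ γ * (A * Real.log 2) :=
          mul_le_mul_of_nonneg_left hal hγ0.le
        have g4 : 0 ≤ γ * (a * Real.log 2) := by positivity
        have g5 : (0 : ℝ) ≤ a := by positivity
        have g6 : 0 ≤ γ * (A * Real.log 2) := by positivity
        constructor <;> linarith
      have g7 : A + γ * (A * Real.log 2) ≤ ε / 4 * Real.log m := by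
        have : (4 / ε) * (A + γ * (A * Real.log 2)) ≤ Real.log m := by
          rw [hR] at hlogm; linarith
        calc A + γ * (A * Real.log 2) = ε / 4 * ((4 / ε) * (A + γ * (A * Real.log 2))) := by
              field_simp
          _ ≤ ε / 4 * Real.log m := mul_le_mul_of_nonneg_left this (by positivity)
      calc |(t - γ * Real.log n) + (γ * (a * Real.log 2) - a)|
          ≤ |t - γ * Real.log n| + |γ * (a * Real.log 2) - a| := abs_add_le _ _
        _ ≤ ε / 4 * Real.log n + ε / 4 * Real.log m := add_le_add h6 (g2.trans g7)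
        _ ≤ ε / 4 * (2 * Real.log m) + ε / 4 * Real.log m := by
            have := mul_le_mul_of_nonneg_left g1 (show 0 ≤ ε / 4 by positivity)
            linarith
        _ ≤ ε * Real.log m := by
            have : 0 ≤ ε * Real.log m := by
              apply mul_nonneg hε.le; linarith
            linarith
  · have hA1' : (0 : ℝ) < 2 * (A + 1) := by positivity
    have h1 : c' * X * (2 * (A + 1)) ≤ c * X := by
      have h2 : c' * (2 * (A + 1)) ≤ c := by
        calc c' * (2 * (A + 1)) ≤ c / (2 * (A + 1)) * (2 * (A + 1)) :=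
              mul_le_mul_of_nonneg_right (min_le_left _ _) hA1'.le
          _ = c := by field_simp
      nlinarith
    have h2 : c' * X * (2 * (A + 1)) ≤ ((S1.image φ).card : ℝ) * (2 * (A + 1)) := by
      linarith
    exact le_of_mul_le_mul_right h2 hA1'

/-! ### the map on odd numbers -/

/-- `C m = (3 m + 1) / 2^v`, `2^v` the largest power of `2` dividing `3 m + 1` -/
def Cm : ℕ → ℕ := fun m : ℕ => (3 * m + 1) / 2 ^ padicValNat 2 (3 * m + 1)

theorem Cm_height (t : ℕ) : ∀ m : ℕ, Odd m → m ≠ 1 → TN^[t] m = 1 → (∀ j < t, TN^[j] m ≠ 1) →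
    1 ≤ oc t m ∧ Cm^[oc t m] m = 1 ∧ ∀ k, 1 ≤ k → k < oc t m → Cm^[k] m ≠ 1 := by
  induction t using Nat.strong_induction_on with
  | _ t ih =>
  intro m hm hm1 ht hj
  obtain ⟨e, q, hq, he⟩ := Nat.exists_eq_two_pow_mul_odd (n := 3 * m + 1) (by omega)
  have hv : padicValNat 2 (3 * m + 1) = e := by
    rw [he, padicValNat.mul (by positivity) (by rintro rfl; simp at hq), padicValNat.prime_pow,
      padicValNat.eq_zero_of_not_dvd (by rw [← even_iff_two_dvd, Nat.not_even_iff_odd]; exact hq)]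
    rfl
  have hC : Cm m = q := by
    unfold Cm
    rw [hv]
    conv_lhs => rw [he]
    exact Nat.mul_div_cancel_left _ (by positivity)
  have hm2 : m % 2 = 1 := Nat.odd_iff.1 hm
  have hq2 : q % 2 = 1 := Nat.odd_iff.1 hq
  have he1 : 1 ≤ e := by
    by_contra h0
    have h0 : e = 0 := by omega
    rw [h0, pow_zero, one_mul] at he
    omega
  obtain ⟨f, rfl⟩ := Nat.exists_eq_add_of_le he1
  have h1 : TN m = 2 ^ f * q := by
    rw [TN_odd hm2]
    have h2 : 2 ^ (1 + f) * q = 2 * (2 ^ f * q) := by ring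
    omega
  have ht0 : t ≠ 0 := by
    rintro rfl
    exact hm1 ht
  obtain ⟨s, rfl⟩ : ∃ s, t = s + 1 := ⟨t - 1, by omega⟩
  rw [Function.iterate_succ_apply, h1] at ht
  have hj' : ∀ j < s, TN^[j] (2 ^ f * q) ≠ 1 := by
    intro j hjs
    rw [← h1, ← Function.iterate_succ_apply]
    exact hj (j + 1) (by omega)
  obtain ⟨hfs, hq1, hq3⟩ := odd_part ht hj' hq.pos
  have hoc : oc (s + 1) m = 1 + oc (s - f) q := by
    rw [oc, hm2, h1]
    obtain ⟨d, rfl⟩ := Nat.exists_eq_add_of_le hfs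
    rw [oc_add, (TN_halve f q).1, (TN_halve f q).2, zero_add]
    congr 3
    omega
  by_cases hq11 : q = 1
  · subst hq11
    have hs : s - f = 0 := by
      by_contra hne
      exact hq3 0 (by omega) rfl
    rw [hoc, hs, oc]
    refine ⟨le_refl _, ?_, ?_⟩
    · rw [Function.iterate_one, hC]
    · intro k h3 h4; omega
  · obtain ⟨h3, h4, h5⟩ := ih (s - f) (by omega) q hq hq11 hq1 hq3
    rw [hoc]
    refine ⟨by omega, ?_, ?_⟩
    · rw [add_comm, Function.iterate_succ_apply, hC, h4]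
    · intro k hk1 hk2
      obtain ⟨k', rfl⟩ : ∃ k', k = k' + 1 := ⟨k - 1, by omega⟩
      rw [Function.iterate_succ_apply, hC]
      rcases Nat.eq_zero_or_pos k' with h0 | h0
      · subst h0; exact hq11
      · exact h5 k' h0 (by omega)

/-- the height of a positive proportion of the odd integers is as expected -/
theorem sharp_height (ε : ℝ) (hε : 0 < ε) : ∃ c : ℝ, 0 < c ∧ ∀ᶠ x : ℝ in atTop,
    c * x ≤ (Set.ncard {m : ℕ | Odd m ∧ (m : ℝ) ≤ x ∧ ∃ h : ℕ, 1 ≤ h ∧ Cm^[h] m = 1 ∧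
      (∀ k, 1 ≤ k → k < h → Cm^[k] m ≠ 1) ∧
      |(h : ℝ) - 2 / Real.log (16 / 9) * Real.log m| ≤ ε * Real.log m} : ℝ) := by
  have hl3 : 0 < Real.log 3 := Real.log_pos (by norm_num)
  have hl2 : 0 < Real.log 2 := Real.log_pos (by norm_num)
  have hl23 : Real.log 2 ≤ Real.log 3 := Real.log_le_log (by norm_num) (by norm_num)
  have hμ : Real.log (4 / 3) = 2 * Real.log 2 - Real.log 3 := by
    rw [Real.log_div (by norm_num) (by norm_num)]
    have : Real.log 4 = 2 * Real.log 2 := by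
      rw [show (4 : ℝ) = 2 ^ 2 by norm_num, Real.log_pow]; push_cast; ring
    rw [this]
  have hμ0 : 0 < Real.log (4 / 3) := Real.log_pos (by norm_num)
  have hMM : Real.log (16 / 9) = 2 * Real.log (4 / 3) := by
    rw [show (16 : ℝ) / 9 = (4 / 3) ^ 2 by norm_num, Real.log_pow]; push_cast; ring
  obtain ⟨c, hc, X0, h⟩ := sharp_odd (ε / 4) (by positivity)
  set μ := Real.log (4 / 3) with hμd
  -- constants
  obtain ⟨K, hK⟩ := exists_nat_gt (max 1 ((2 / μ + ε / 4) / (ε * Real.log 3)))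
  have hK1 : 1 ≤ K := by
    have : (1 : ℝ) < K := (le_max_left _ _).trans_lt hK
    exact_mod_cast this.le
  have hKR : (0 : ℝ) < K := by exact_mod_cast hK1
  have hK2 : (2 / μ + ε / 4) / (3 * K) ≤ ε * Real.log 3 / 3 := by
    have h1 : (2 / μ + ε / 4) / (ε * Real.log 3) < K := (le_max_right _ _).trans_lt hK
    rw [div_lt_iff₀ (by positivity)] at h1
    rw [div_le_iff₀ (by positivity)]
    nlinarith
  refine ⟨c, hc, ?_⟩
  filter_upwards [eventually_ge_atTop X0,
    eventually_ge_atTop (Real.exp (K / 3 / (ε * Real.log 3 / 3)) / c)] with X hX hX2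
  obtain ⟨S, hS, hcard⟩ := h X hX
  have key : ∀ m ∈ S, 1 ≤ m ∧ (m : ℝ) ≤ X ∧ (Odd m ∧ ∃ h : ℕ, 1 ≤ h ∧ Cm^[h] m = 1 ∧
      (∀ k, 1 ≤ k → k < h → Cm^[k] m ≠ 1) ∧
      |(h : ℝ) - 2 / Real.log (16 / 9) * Real.log m| ≤ ε * Real.log m) := by
    intro m hm
    obtain ⟨h1, h2, h3, h4, t, h5, h6, h7⟩ := hS m hm
    obtain ⟨g1, g2, g3⟩ := Cm_height t m h2 (by omega) h5 h6
    refine ⟨by omega, h4, h2, oc t m, g1, g2, g3, ?_⟩
    obtain ⟨b1, b2⟩ := oc_bounds h5 h6 (by omega) hK1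
    have hmR : (0 : ℝ) < m := by exact_mod_cast (by omega : 0 < m)
    have hlm : K / 3 ≤ ε * Real.log 3 / 3 * Real.log m := by
      have e1 : Real.exp (K / 3 / (ε * Real.log 3 / 3)) ≤ m := by
        refine le_trans ?_ h3
        rw [div_le_iff₀ hc] at hX2
        linarith
      have e2 := (Real.le_log_iff_exp_le hmR).2 e1
      rw [div_le_iff₀ (by positivity)] at e2
      linarith
    have hlm0 : 0 ≤ Real.log (m : ℝ) := Real.log_natCast_nonneg m
    obtain ⟨t1, t2⟩ := abs_le.1 h7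
    have ht3 : (t : ℝ) / (3 * K) ≤ ε * Real.log 3 / 3 * Real.log m := by
      calc (t : ℝ) / (3 * K) ≤ ((2 / μ + ε / 4) * Real.log m) / (3 * K) := by
            apply div_le_div_of_nonneg_right _ (by positivity)
            linarith
        _ = ((2 / μ + ε / 4) / (3 * K)) * Real.log m := by ring
        _ ≤ _ := mul_le_mul_of_nonneg_right hK2 hlm0
    rw [hMM]
    have e3 : 2 / (2 * μ) * Real.log m * Real.log 3 = 2 / μ * Real.log m * Real.log 2 - Real.log m := by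
      have e4 : Real.log 3 = 2 * Real.log 2 - μ := by rw [hμ]; ring
      rw [e4]
      field_simp
    have e5 : ε / 4 * Real.log m * Real.log 2 ≤ ε / 4 * Real.log m * Real.log 3 :=
      mul_le_mul_of_nonneg_left hl23 (by positivity)
    have e6 : 0 ≤ ε * Real.log m * Real.log 3 := by positivity
    have u1 : (oc t m - 2 / (2 * μ) * Real.log m) * Real.log 3 ≤ (ε * Real.log m) * Real.log 3 := by
      have := mul_le_mul_of_nonneg_right t2 hl2.le
      nlinarith
    have u2 : (-(ε * Real.log m)) * Real.log 3 ≤ (oc t m - 2 / (2 * μ) * Real.log m) * Real.log 3 := by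
      have := mul_le_mul_of_nonneg_right t1 hl2.le
      nlinarith
    rw [abs_le]
    exact ⟨le_of_mul_le_mul_right u2 hl3, le_of_mul_le_mul_right u1 hl3⟩
  have := card_transfer (fun m => Odd m ∧ ∃ h : ℕ, 1 ≤ h ∧ Cm^[h] m = 1 ∧
      (∀ k, 1 ≤ k → k < h → Cm^[k] m ≠ 1) ∧
      |(h : ℝ) - 2 / Real.log (16 / 9) * Real.log m| ≤ ε * Real.log m) c X S key hcard
  refine this.trans ?_
  have hsub : {n : ℕ | 1 ≤ n ∧ (n : ℝ) ≤ X ∧ (Odd n ∧ ∃ h : ℕ, 1 ≤ h ∧ Cm^[h] n = 1 ∧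
      (∀ k, 1 ≤ k → k < h → Cm^[k] n ≠ 1) ∧
      |(h : ℝ) - 2 / Real.log (16 / 9) * Real.log n| ≤ ε * Real.log n)} ⊆
      {m : ℕ | Odd m ∧ (m : ℝ) ≤ X ∧ ∃ h : ℕ, 1 ≤ h ∧ Cm^[h] m = 1 ∧
      (∀ k, 1 ≤ k → k < h → Cm^[k] m ≠ 1) ∧
      |(h : ℝ) - 2 / Real.log (16 / 9) * Real.log m| ≤ ε * Real.log m} :=
    fun n hn => ⟨hn.2.2.1, hn.2.1, hn.2.2.2⟩
  have hfin : {m : ℕ | Odd m ∧ (m : ℝ) ≤ X ∧ ∃ h : ℕ, 1 ≤ h ∧ Cm^[h] m = 1 ∧
      (∀ k, 1 ≤ k → k < h → Cm^[k] m ≠ 1) ∧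
      |(h : ℝ) - 2 / Real.log (16 / 9) * Real.log m| ≤ ε * Real.log m}.Finite := by
    apply (Set.finite_Iic ⌊X⌋₊).subset
    intro n hn
    exact Nat.le_floor hn.2.1
  exact_mod_cast Set.ncard_le_ncard hsub hfin

/-! ### parity sums -/

theorem TN_two_cycle (j : ℕ) : TN^[2 * j] 1 = 1 ∧ TN^[2 * j + 1] 1 = 2 := by
  induction j with
  | zero => exact ⟨rfl, rfl⟩
  | succ j ih =>
    have h1 : TN^[2 * (j + 1)] 1 = 1 := by
      rw [show 2 * (j + 1) = (2 * j + 1) + 1 by ring, Function.iterate_succ_apply', ih.2]; rfl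
    exact ⟨h1, by rw [Function.iterate_succ_apply', h1]; rfl⟩

theorem parity_tail (k : ℕ) : (2 : ℤ) ^ k ∣
    3 * ∑ i ∈ range k, (((TN^[i] 1) % 2 : ℕ) : ℤ) * (2 : ℤ) ^ i + 1 := by
  have key : ∀ j : ℕ, 3 * ∑ i ∈ range (2 * j), (((TN^[i] 1) % 2 : ℕ) : ℤ) * (2 : ℤ) ^ i + 1 =
      2 ^ (2 * j) := by
    intro j
    induction j with
    | zero => simp
    | succ j ih =>
      rw [show 2 * (j + 1) = (2 * j + 1) + 1 by ring, Finset.sum_range_succ, Finset.sum_range_succ,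
        (TN_two_cycle j).1, (TN_two_cycle j).2, show (((1 : ℕ) % 2 : ℕ) : ℤ) = 1 from rfl,
        show (((2 : ℕ) % 2 : ℕ) : ℤ) = 0 from rfl]
      rw [pow_succ, pow_succ]
      linear_combination ih
  obtain ⟨j, hj | hj⟩ := Nat.even_or_odd' k
  · rw [hj, key j]
  · rw [hj, Finset.sum_range_succ, (TN_two_cycle j).1]
    have h := key j
    have : 3 * (∑ i ∈ range (2 * j), (((TN^[i] 1) % 2 : ℕ) : ℤ) * (2 : ℤ) ^ i +
        (((1 : ℕ) % 2 : ℕ) : ℤ) * 2 ^ (2 * j)) + 1 = 2 * 2 ^ (2 * j + 1) := by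
      rw [show (((1 : ℕ) % 2 : ℕ) : ℤ) = 1 from rfl, pow_succ]
      linear_combination h
    rw [this]
    exact Dvd.intro_left 2 rfl

/-- the parity encoding of an integer reaching `1` -/
theorem parity_third {t n : ℕ} (h : TN^[t] n = 1) : ∃ m : ℤ, ¬ ((3 : ℤ) ∣ m) ∧
    ∀ k : ℕ, ((2 : ℤ) ^ k) ∣
      (3 * ∑ i ∈ range k, (((TN^[i] n) % 2 : ℕ) : ℤ) * (2 : ℤ) ^ i - m) := by
  refine ⟨3 * ∑ i ∈ range t, (((TN^[i] n) % 2 : ℕ) : ℤ) * (2 : ℤ) ^ i - 2 ^ t, ?_, ?_⟩
  · intro hd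
    have h1 : (3 : ℤ) ∣ 2 ^ t := by
      have h2 : (3 : ℤ) ∣ 3 * ∑ i ∈ range t, (((TN^[i] n) % 2 : ℕ) : ℤ) * (2 : ℤ) ^ i :=
        Dvd.intro _ rfl
      have := (Int.dvd_sub h2 hd)
      simpa using this
    have h3 := Int.prime_three.dvd_of_dvd_pow h1
    norm_num at h3
  · intro k
    by_cases hk : t ≤ k
    · obtain ⟨d, rfl⟩ := Nat.exists_eq_add_of_le hk
      rw [Finset.sum_range_add]
      have h1 : ∑ i ∈ range d, (((TN^[t + i] n) % 2 : ℕ) : ℤ) * (2 : ℤ) ^ (t + i) =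
          2 ^ t * ∑ i ∈ range d, (((TN^[i] 1) % 2 : ℕ) : ℤ) * (2 : ℤ) ^ i := by
        rw [Finset.mul_sum]
        apply Finset.sum_congr rfl
        intro i _
        rw [add_comm t i, Function.iterate_add_apply, h, pow_add]
        ring
      rw [h1]
      obtain ⟨q, hq⟩ := parity_tail d
      refine ⟨q, ?_⟩
      rw [pow_add]
      linear_combination 2 ^ t * hq
    · rw [not_le] at hk
      obtain ⟨d, rfl⟩ := Nat.exists_eq_add_of_le hk.le
      rw [Finset.sum_range_add]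
      have h1 : ∑ i ∈ range d, (((TN^[k + i] n) % 2 : ℕ) : ℤ) * (2 : ℤ) ^ (k + i) =
          2 ^ k * ∑ i ∈ range d, (((TN^[k + i] n) % 2 : ℕ) : ℤ) * (2 : ℤ) ^ i := by
        rw [Finset.mul_sum]
        apply Finset.sum_congr rfl
        intro i _
        rw [pow_add]
        ring
      rw [h1]
      refine ⟨2 ^ d - 3 * ∑ i ∈ range d, (((TN^[k + i] n) % 2 : ℕ) : ℤ) * (2 : ℤ) ^ i, ?_⟩
      rw [pow_add]
      ring

theorem sharp_parity : ∃ c : ℝ, 0 < c ∧ ∀ᶠ x : ℝ in atTop,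
    c * x ≤ (Set.ncard {n : ℕ | 1 ≤ n ∧ (n : ℝ) ≤ x ∧ ∃ m : ℤ, ¬ ((3 : ℤ) ∣ m) ∧
      ∀ k : ℕ, ((2 : ℤ) ^ k) ∣
        (3 * ∑ i ∈ range k, (((TN^[i] n) % 2 : ℕ) : ℤ) * (2 : ℤ) ^ i - m)} : ℝ) := by
  obtain ⟨c, hc, X0, h⟩ := sharp 1 one_pos
  refine ⟨c, hc, ?_⟩
  filter_upwards [eventually_ge_atTop X0] with X hX
  obtain ⟨S, hS, hcard⟩ := h X hX
  refine card_transfer _ c X S (fun n hn => ?_) hcard
  obtain ⟨h1, _, h3, t, h4, _⟩ := hS n hn
  exact ⟨h1, h3, parity_third h4⟩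

end Pool.Agent.H363R2
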