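import Pool.Agent.H412R2.FinalOf

set_option autoImplicit false

/-!
Backward trees of the `3x+k` maps (`k` coprime to `6`): the kernel of the `3x+1` project
(`Pool.Agent.H412R2`) is transported to every `3x+k` map.
-/

namespace Pool.Agent.H363R2
open Pool.Agent.H412R2

/-- endpoints of backward words with `n` letters, all letters in `[1,E]`, of total size `s`,
starting at `x`; a letter `e` leads from `x` to `b` with `3 b + k = 2^e x` -/
def trk (k : ℤ) (E : ℕ) : ℕ → ℕ → ℤ → Finset ℤ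
  | 0, s, x => if s = 0 then {x} else ∅
  | n + 1, s, x => (Finset.Icc 1 (min s E)).biUnion fun e =>
      if (3 : ℤ) ∣ 2 ^ e * x - k then trk k E n (s - e) ((2 ^ e * x - k) / 3) else ∅

variable {k : ℤ}

theorem mem_trk_zero {E s : ℕ} {x z : ℤ} : z ∈ trk k E 0 s x ↔ s = 0 ∧ z = x := by
  unfold trk
  by_cases h : s = 0
  · simp [h]
  · simp [h]

theorem mem_trk_succ {E n s : ℕ} {x z : ℤ} :
    z ∈ trk k E (n + 1) s x ↔ ∃ (e : ℕ) (b : ℤ), 1 ≤ e ∧ e ≤ E ∧ e ≤ s ∧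
      3 * b + k = 2 ^ e * x ∧ z ∈ trk k E n (s - e) b := by
  rw [trk]
  simp only [Finset.mem_biUnion, Finset.mem_Icc]
  constructor
  · rintro ⟨e, ⟨he1, he2⟩, hz⟩
    split_ifs at hz with hd
    · obtain ⟨b, hb⟩ := hd
      refine ⟨e, b, he1, le_trans he2 (min_le_right _ _), le_trans he2 (min_le_left _ _), by linarith, ?_⟩
      rw [hb, Int.mul_ediv_cancel_left _ (by norm_num)] at hz
      exact hz
    · simp at hz
  · rintro ⟨e, b, he1, he2, he3, hb, hz⟩
    refine ⟨e, ⟨he1, le_min he3 he2⟩, ?_⟩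
    have hd : (2 : ℤ) ^ e * x - k = 3 * b := by linarith
    rw [hd, if_pos (Dvd.intro _ rfl), Int.mul_ediv_cancel_left _ (by norm_num)]
    exact hz

theorem trk_off {E n s : ℕ} {x z : ℤ} (hz : z ∈ trk k E n s x) :
    ∃ o : ℤ, 0 ≤ o ∧ o ≤ 2 ^ s * 3 ^ n ∧ 2 ^ s * x - 3 ^ n * z = k * o := by
  induction n generalizing s x with
  | zero =>
    obtain ⟨rfl, rfl⟩ := mem_trk_zero.1 hz
    exact ⟨0, le_rfl, by positivity, by simp⟩
  | succ n ih =>
    obtain ⟨e, b, he1, he2, he3, hb, hz⟩ := mem_trk_succ.1 hz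
    obtain ⟨o, ho1, ho2, ho3⟩ := ih hz
    have hs : (2 : ℤ) ^ s = 2 ^ (s - e) * 2 ^ e := by
      rw [← pow_add]; congr 1; omega
    refine ⟨2 ^ (s - e) + 3 * o, by positivity, ?_, ?_⟩
    · have h3n : (1 : ℤ) ≤ 3 ^ (n + 1) := one_le_pow₀ (by norm_num)
      have h2e : (2 : ℤ) ≤ 2 ^ e := by
        calc (2 : ℤ) = 2 ^ 1 := by norm_num
          _ ≤ 2 ^ e := pow_le_pow_right₀ (by norm_num) he1
      have hp : (0 : ℤ) < 2 ^ (s - e) := by positivity
      calc (2 : ℤ) ^ (s - e) + 3 * o ≤ 2 ^ (s - e) + 3 * (2 ^ (s - e) * 3 ^ n) := by linarith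
        _ = 2 ^ (s - e) * (1 + 3 ^ (n + 1)) := by ring
        _ ≤ 2 ^ (s - e) * (2 ^ e * 3 ^ (n + 1)) := by
            apply mul_le_mul_of_nonneg_left _ hp.le
            nlinarith
        _ = 2 ^ s * 3 ^ (n + 1) := by rw [hs]; ring
    · have h2 : (2 : ℤ) ^ s * x - 3 ^ (n + 1) * z =
          2 ^ (s - e) * k + 3 * (2 ^ (s - e) * b - 3 ^ n * z) := by
        rw [hs, mul_assoc, ← hb, pow_succ]; ring
      rw [h2, ho3]; ring

theorem trk_shift_aux {E n s : ℕ} {x z : ℤ} (hz : z ∈ trk k E n s x) (y : ℤ) :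
    z + 2 ^ s * y ∈ trk k E n s (x + 3 ^ n * y) := by
  induction n generalizing s x y with
  | zero =>
    obtain ⟨rfl, rfl⟩ := mem_trk_zero.1 hz
    rw [mem_trk_zero]
    simp
  | succ n ih =>
    obtain ⟨e, b, he1, he2, he3, hb, hz⟩ := mem_trk_succ.1 hz
    rw [mem_trk_succ]
    refine ⟨e, b + 3 ^ n * (2 ^ e * y), he1, he2, he3, ?_, ?_⟩
    · rw [mul_add, mul_add, ← hb, pow_succ]; ring
    · have h := ih hz (2 ^ e * y)
      have hs : (2 : ℤ) ^ s = 2 ^ (s - e) * 2 ^ e := by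
        rw [← pow_add]; congr 1; omega
      rw [hs, mul_assoc]
      exact h

theorem mem_trk_shift {E n s : ℕ} (x y z : ℤ) :
    z + 2 ^ s * y ∈ trk k E n s (x + 3 ^ n * y) ↔ z ∈ trk k E n s x := by
  constructor
  · intro h
    have h1 := trk_shift_aux h (-y)
    have e1 : z + 2 ^ s * y + 2 ^ s * (-y) = z := by ring
    have e2 : x + 3 ^ n * y + 3 ^ n * (-y) = x := by ring
    rwa [e1, e2] at h1
  · intro h
    exact trk_shift_aux h y

theorem odd_childk {e : ℕ} {x b : ℤ} (hk : Odd k) (he : 1 ≤ e)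
    (hb : 3 * b + k = 2 ^ e * x) : Odd b := by
  have h2 : Even ((2 : ℤ) ^ e * x) := by
    apply Even.mul_right
    exact (Int.even_pow.2 ⟨by decide, by omega⟩)
  rw [← hb] at h2
  obtain ⟨a, ha⟩ := h2
  obtain ⟨c, hc⟩ := hk
  rw [Int.odd_iff]
  omega

theorem trk_unique {E n s s' : ℕ} {x x' z : ℤ} (hk : Odd k) (hz : z ∈ trk k E n s x)
    (hz' : z ∈ trk k E n s' x') (hx : Odd x) (hx' : Odd x') : x = x' := by
  induction n generalizing s s' x x' with
  | zero =>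
    obtain ⟨_, rfl⟩ := mem_trk_zero.1 hz
    obtain ⟨_, rfl⟩ := mem_trk_zero.1 hz'
    rfl
  | succ n ih =>
    obtain ⟨e, b, he1, he2, he3, hb, hz⟩ := mem_trk_succ.1 hz
    obtain ⟨e', b', he1', he2', he3', hb', hz'⟩ := mem_trk_succ.1 hz'
    have hbb : b = b' := ih hz hz' (odd_childk hk he1 hb) (odd_childk hk he1' hb')
    rw [hbb] at hb
    exact (pow_two_odd_eq hx hx' (hb.symm.trans hb')).2

theorem trk_comp {E n m s s' : ℕ} {x z w : ℤ} (hz : z ∈ trk k E n s x)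
    (hw : w ∈ trk k E m s' z) : w ∈ trk k E (n + m) (s + s') x := by
  induction n generalizing s x with
  | zero =>
    obtain ⟨rfl, rfl⟩ := mem_trk_zero.1 hz
    simpa using hw
  | succ n ih =>
    obtain ⟨e, b, he1, he2, he3, hb, hz⟩ := mem_trk_succ.1 hz
    have h1 := ih hz
    have h2 : n + 1 + m = (n + m) + 1 := by ring
    rw [h2, mem_trk_succ]
    refine ⟨e, b, he1, he2, by omega, hb, ?_⟩
    have h3 : s + s' - e = s - e + s' := by omega
    rw [h3]
    exact h1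

theorem trk_end_odd {E n s : ℕ} {x z : ℤ} (hk : Odd k) (hn : 1 ≤ n) (h : z ∈ trk k E n s x) :
    Odd z := by
  induction n generalizing s x with
  | zero => omega
  | succ n ih =>
    obtain ⟨e, b, he1, he2, he3, hb, hz⟩ := mem_trk_succ.1 h
    rcases Nat.eq_zero_or_pos n with rfl | hn'
    · obtain ⟨_, rfl⟩ := mem_trk_zero.1 hz
      exact odd_childk hk he1 hb
    · exact ih hn' hz

theorem trk_middle {E n m s₁ s₂ s₁' s₂' : ℕ} {x y y' z : ℤ} (hk : Odd k) (hn : 1 ≤ n)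
    (h1 : y ∈ trk k E n s₁ x) (h2 : z ∈ trk k E m s₂ y)
    (h1' : y' ∈ trk k E n s₁' x) (h2' : z ∈ trk k E m s₂' y') : y = y' :=
  trk_unique hk h2 h2' (trk_end_odd hk hn h1) (trk_end_odd hk hn h1')

/-- transfer from the `3x+1` tree to the `3x+k` tree -/
theorem transfer {E n s : ℕ} {x z : ℤ} (hz : z ∈ tr 3 E n s x) (y : ℤ) :
    k * z + 2 ^ s * y ∈ trk k E n s (k * x + 3 ^ n * y) := by
  induction n generalizing s x y with
  | zero =>
    obtain ⟨rfl, rfl⟩ := mem_tr_zero.1 hz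
    rw [mem_trk_zero]
    simp
  | succ n ih =>
    obtain ⟨e, b, he1, he2, he3, hb, hz⟩ := (mem_tr_succ (by norm_num)).1 hz
    push_cast at hb
    rw [mem_trk_succ]
    refine ⟨e, k * b + 3 ^ n * (2 ^ e * y), he1, he2, he3, ?_, ?_⟩
    · have : (2 : ℤ) ^ e * (k * x + 3 ^ (n + 1) * y) = k * (2 ^ e * x) + 3 ^ (n + 1) * (2 ^ e * y) := by
        ring
      rw [this, ← hb, pow_succ]; ring
    · have h := ih hz (2 ^ e * y)
      have hs : (2 : ℤ) ^ s = 2 ^ (s - e) * 2 ^ e := by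
        rw [← pow_add]; congr 1; omega
      rw [hs, mul_assoc]
      exact h

/-! ### residues -/

/-- the residue `u x` modulo `3^(T+1)` -/
def xr (u : ℤ) (T : ℕ) (x : ℤ) : ℤ := (x * u) % 3 ^ (T + 1)

theorem xr_shift (u : ℤ) (T : ℕ) (x y : ℤ) : xr u T (x + 3 ^ (T + 1) * y) = xr u T x := by
  unfold xr
  have : (x + 3 ^ (T + 1) * y) * u = x * u + 3 ^ (T + 1) * (y * u) := by ring
  rw [this, Int.add_mul_emod_self_left]

theorem xr_spec {u : ℤ} {T : ℕ} (hu : (3 : ℤ) ^ (T + 1) ∣ k * u - 1) (x : ℤ) :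
    ∃ y : ℤ, x = k * xr u T x + 3 ^ T * (3 * y) := by
  obtain ⟨c, hc⟩ := hu
  have h := Int.emod_add_mul_ediv (x * u) (3 ^ (T + 1))
  refine ⟨k * ((x * u) / 3 ^ (T + 1)) - x * c, ?_⟩
  have e1 : k * xr u T x = k * (x * u) - k * (3 ^ (T + 1) * ((x * u) / 3 ^ (T + 1))) := by
    unfold xr
    linear_combination k * h
  rw [e1]
  have e2 : (3 : ℤ) ^ (T + 1) = 3 ^ T * 3 := pow_succ _ _
  rw [e2] at hc ⊢
  linear_combination (-x) * hc

theorem xr_unit {u : ℤ} {T : ℕ} (hu : (3 : ℤ) ^ (T + 1) ∣ k * u - 1) {x : ℤ}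
    (hx : ¬ (3 : ℤ) ∣ x) : ¬ (3 : ℤ) ∣ xr u T x := by
  intro h
  obtain ⟨y, hy⟩ := xr_spec hu x
  apply hx
  rw [hy]
  exact dvd_add (Dvd.dvd.mul_left h k) ⟨3 ^ T * y, by ring⟩

/-! ### the kernel -/

/-- size used from `x` -/
noncomputable def Sk (u : ℤ) (η : ℝ) (T : ℕ) (x : ℤ) : ℕ := SS η T (xr u T x)

/-- children of `x` -/
noncomputable def Kk (k u : ℤ) (η : ℝ) (T : ℕ) (x : ℤ) : Finset ℤ :=
  (trk k (6 * T) T (Sk u η T x) x).filter (fun z => ¬ (3 : ℤ) ∣ z)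

theorem mem_unit_shiftk (T s : ℕ) (x y z : ℤ) :
    z + 2 ^ s * (3 * y) ∈ (trk k (6 * T) T s (x + 3 ^ (T + 1) * y)).filter (fun z => ¬ (3 : ℤ) ∣ z) ↔
      z ∈ (trk k (6 * T) T s x).filter (fun z => ¬ (3 : ℤ) ∣ z) := by
  have h := mem_trk_shift (k := k) (E := 6 * T) (n := T) (s := s) x (3 * y) z
  have e : x + 3 ^ (T + 1) * y = x + 3 ^ T * (3 * y) := by
    ring
  rw [e, Finset.mem_filter, Finset.mem_filter, h]
  have h3 : (3 : ℤ) ∣ z + 2 ^ s * (3 * y) ↔ (3 : ℤ) ∣ z := by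
    have : (3 : ℤ) ∣ 2 ^ s * (3 * y) := ⟨2 ^ s * y, by ring⟩
    exact dvd_add_left this
  rw [h3]

theorem unit_mul (hk3 : ¬ (3 : ℤ) ∣ k) {z : ℤ} (hz : ¬ (3 : ℤ) ∣ z) : ¬ (3 : ℤ) ∣ k * z := by
  intro h
  rcases Int.prime_three.dvd_or_dvd h with h | h
  · exact hk3 h
  · exact hz h

theorem card_Kk {u : ℤ} {η : ℝ} {T : ℕ} (hk3 : ¬ (3 : ℤ) ∣ k)
    (hu : (3 : ℤ) ^ (T + 1) ∣ k * u - 1) (x : ℤ) :
    (KK η T (xr u T x)).card ≤ (Kk k u η T x).card := by
  obtain ⟨y, hy⟩ := xr_spec hu x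
  have hk0 : k ≠ 0 := by rintro rfl; exact hk3 (dvd_zero _)
  refine Finset.card_le_card_of_injOn (fun z => k * z + 2 ^ (Sk u η T x) * (3 * y)) ?_ ?_
  · intro z hz
    rw [Finset.mem_coe, KK, Finset.mem_filter] at hz
    rw [Finset.mem_coe, Kk, Finset.mem_filter]
    constructor
    · have h := transfer (k := k) hz.1 (3 * y)
      rw [← hy] at h
      exact h
    · intro hd
      have h3 : (3 : ℤ) ∣ 2 ^ (Sk u η T x) * (3 * y) := ⟨2 ^ (Sk u η T x) * y, by ring⟩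
      exact unit_mul hk3 hz.2 ((dvd_add_left h3).1 hd)
  · intro z _ z' _ h
    simp only [add_left_inj] at h
    exact mul_left_cancel₀ hk0 h

theorem pathk_size {u : ℤ} {η : ℝ} {T j s : ℕ} {x z : ℤ}
    (h : Path (Sk u η T) (Kk k u η T) j s x z) : s ≤ 6 * T * j := by
  induction h with
  | refl x => simp
  | step hb _ ih =>
    rename_i j s x b z _
    have : Sk u η T x ≤ 6 * T := SS_le η T _
    calc s + Sk u η T x ≤ 6 * T * j + 6 * T := by omega
      _ = 6 * T * (j + 1) := by ring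

theorem pathk_tr {u : ℤ} {η : ℝ} {T j s : ℕ} {x z : ℤ}
    (h : Path (Sk u η T) (Kk k u η T) j s x z) :
    z ∈ trk k (6 * T) (T * j) s x := by
  induction h with
  | refl x =>
    rw [Nat.mul_zero, mem_trk_zero]; exact ⟨rfl, rfl⟩
  | step hb _ ih =>
    rename_i j s x b z _
    have h1 : b ∈ trk k (6 * T) T (Sk u η T x) x := (Finset.mem_filter.1 hb).1
    have h2 := trk_comp h1 ih
    have e1 : T + T * j = T * (j + 1) := by ring
    have e2 : Sk u η T x + s = s + Sk u η T x := by ring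
    rw [e1, e2] at h2
    exact h2

theorem natAbs_le_two_pow (k : ℤ) : |k| ≤ 2 ^ k.natAbs := by
  rw [Int.abs_eq_natAbs]
  exact_mod_cast Nat.lt_two_pow_self.le

theorem pathk_sep {u : ℤ} {η : ℝ} {T : ℕ} (hk : Odd k) (hT : 1 ≤ T) (j s : ℕ) (x b b' z z' : ℤ)
    (hb : b ∈ Kk k u η T x) (hb' : b' ∈ Kk k u η T x)
    (h : Path (Sk u η T) (Kk k u η T) j s b z) (h' : Path (Sk u η T) (Kk k u η T) j s b' z')
    (hz : z ≡ z' [ZMOD (3 : ℤ) ^ ((6 * T + k.natAbs) * (j + 1))]) : b = b' := by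
  have h1 : b ∈ trk k (6 * T) T (Sk u η T x) x := (Finset.mem_filter.1 hb).1
  have h1' : b' ∈ trk k (6 * T) T (Sk u η T x) x := (Finset.mem_filter.1 hb').1
  have h2 := pathk_tr h
  have h2' := pathk_tr h'
  have h3 := trk_comp h1 h2
  have h3' := trk_comp h1' h2'
  obtain ⟨o, ho1, ho2, ho3⟩ := trk_off h3
  obtain ⟨o', ho1', ho2', ho3'⟩ := trk_off h3'
  have hs : Sk u η T x + s ≤ 6 * T * (j + 1) := by
    have e1 : Sk u η T x ≤ 6 * T := SS_le η T _
    have e2 := pathk_size h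
    calc Sk u η T x + s ≤ 6 * T + 6 * T * j := by omega
      _ = 6 * T * (j + 1) := by ring
  have hk1 : 1 ≤ k.natAbs := by
    obtain ⟨c, hc⟩ := hk
    omega
  have hzz : z = z' := by
    by_contra hne
    have hd : (3 : ℤ) ^ ((6 * T + k.natAbs) * (j + 1)) ∣ z' - z := (Int.modEq_iff_dvd).1 hz
    have hle : (3 : ℤ) ^ ((6 * T + k.natAbs) * (j + 1)) ≤ |z' - z| := by
      apply Int.le_of_dvd
      · exact abs_pos.2 (sub_ne_zero.2 (Ne.symm hne))
      · exact (dvd_abs _ _).2 hd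
    have hup : |z' - z| ≤ |k| * 2 ^ (Sk u η T x + s) := by
      have hp : (0 : ℤ) < 3 ^ (T + T * j) := by positivity
      have e1 : (3 : ℤ) ^ (T + T * j) * (z' - z) = k * (o - o') := by linarith
      have e2 : (3 : ℤ) ^ (T + T * j) * |z' - z| = |k| * |o - o'| := by
        rw [← abs_mul, ← e1, abs_mul, abs_of_pos hp]
      have e3 : |o - o'| ≤ 2 ^ (Sk u η T x + s) * 3 ^ (T + T * j) := by
        rw [abs_le]; constructor <;> linarith
      have e4 : (3 : ℤ) ^ (T + T * j) * |z' - z| ≤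
          3 ^ (T + T * j) * (|k| * 2 ^ (Sk u η T x + s)) := by
        rw [e2]
        calc |k| * |o - o'| ≤ |k| * (2 ^ (Sk u η T x + s) * 3 ^ (T + T * j)) :=
              mul_le_mul_of_nonneg_left e3 (abs_nonneg _)
          _ = _ := by ring
      exact le_of_mul_le_mul_left e4 hp
    have h23 : |k| * (2 : ℤ) ^ (Sk u η T x + s) < 3 ^ ((6 * T + k.natAbs) * (j + 1)) := by
      calc |k| * (2 : ℤ) ^ (Sk u η T x + s) ≤ 2 ^ k.natAbs * 2 ^ (6 * T * (j + 1)) := by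
            apply mul_le_mul (natAbs_le_two_pow k) _ (by positivity) (by positivity)
            exact pow_le_pow_right₀ (by norm_num) hs
        _ = 2 ^ (k.natAbs + 6 * T * (j + 1)) := by rw [pow_add]
        _ ≤ 2 ^ ((6 * T + k.natAbs) * (j + 1)) := by
            apply pow_le_pow_right₀ (by norm_num)
            have : k.natAbs * 1 ≤ k.natAbs * (j + 1) := Nat.mul_le_mul_left _ (by omega)
            calc k.natAbs + 6 * T * (j + 1) ≤ k.natAbs * (j + 1) + 6 * T * (j + 1) := by omega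
              _ = (6 * T + k.natAbs) * (j + 1) := by ring
        _ < 3 ^ ((6 * T + k.natAbs) * (j + 1)) := by
          apply pow_lt_pow_left₀ (by norm_num) (by norm_num)
          have : 0 < (6 * T + k.natAbs) * (j + 1) := by positivity
          omega
    omega
  subst hzz
  exact trk_middle hk hT h1 h2 h1' h2'

/-- the kernel of the `3x+k` map -/
noncomputable def kerk (u : ℤ) (hk : Odd k) (hk3 : ¬ (3 : ℤ) ∣ k) (η : ℝ) (T : ℕ)
    (hu : (3 : ℤ) ^ (T + 1) ∣ k * u - 1) (hη : η ≤ c2 / 4) (hT : 20 ≤ T) : Ker 3 T where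
  S := Sk u η T
  K := Kk k u η T
  Smax := 6 * T + k.natAbs
  D := 6 * T + k.natAbs
  hSmax := fun x => (SS_le η T _).trans (Nat.le_add_right _ _)
  hS := by
    intro x y _
    unfold Sk
    push_cast
    rw [xr_shift]
  hK := by
    intro x y b _
    unfold Kk Sk
    push_cast
    rw [xr_shift]
    exact mem_unit_shiftk T _ x y b
  hcard := by
    intro x hx
    refine (KK_card_ge hη hT (xr_unit hu (by exact_mod_cast hx))).trans (card_Kk hk3 hu x)
  hlive := by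
    intro x b _ hb
    have := (Finset.mem_filter.1 hb).2
    exact_mod_cast this
  hsep := by
    intro j s x b b' z z' _ hb hb' h h' hz
    exact pathk_sep hk (by omega) j s x b b' z z' hb hb' h h' (by exact_mod_cast hz)

end Pool.Agent.H363R2
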