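import Pool.Agent.H320R2.PDFinal

set_option autoImplicit false

/-! Positive lower density of integers reaching `1` along a nice path: near the end of the path the
number of remaining steps is logarithmic in the current value. -/

namespace Pool.Agent.H363R2
open Pool.Agent.H320R2.PD Finset

/-- the `3x+1` map on the natural numbers -/
def TN : ℕ → ℕ := fun m : ℕ => if m % 2 = 0 then m / 2 else (3 * m + 1) / 2

theorem TN_iter (k n : ℕ) : ((TN^[k] n : ℕ) : ℤ) = fT^[k] (n : ℤ) := by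
  induction k generalizing n with
  | zero => rfl
  | succ k ih =>
    rw [Function.iterate_succ_apply, Function.iterate_succ_apply, ih]
    congr 1
    simp only [fT, TN]
    split_ifs <;> omega

theorem pow_cod (m : ℕ) : ∀ z : ℤ, 0 < z → 3 ^ cod m z * z ≤ 2 ^ m * fT^[m] z := by
  induction m with
  | zero => intro z _; simp [cod]
  | succ m ih =>
    intro z hz
    have hf : 0 < fT z := (fT_pos_iff z).2 hz
    have h1 := ih (fT z) hf
    have h2 : 3 ^ (if z % 2 = 0 then 0 else 1) * z ≤ 2 * fT z := by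
      by_cases h : z % 2 = 0
      · rw [if_pos h, fT_even h]; omega
      · rw [if_neg h, fT_odd h]; omega
    rw [Function.iterate_succ_apply, cod]
    calc 3 ^ ((if z % 2 = 0 then 0 else 1) + cod m (fT z)) * z
        = 3 ^ cod m (fT z) * (3 ^ (if z % 2 = 0 then 0 else 1) * z) := by rw [pow_add]; ring
      _ ≤ 3 ^ cod m (fT z) * (2 * fT z) := mul_le_mul_of_nonneg_left h2 (by positivity)
      _ = 2 * (3 ^ cod m (fT z) * fT z) := by ring
      _ ≤ 2 * (2 ^ m * fT^[m] (fT z)) := by linarith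
      _ = _ := by ring

/-- the number of odd steps among the last `s` steps -/
theorem last_cod (w : List ℕ) : ∀ x : ℤ, (∀ e ∈ w, 1 ≤ e) →
    (3 : ℤ) ^ w.length ∣ 2 ^ w.sum * x - Wo w → ∀ s ≤ w.sum, ∃ i ≤ w.length,
      (w.take i).sum ≤ s ∧
        cod s (fT^[w.sum - s] ((2 ^ w.sum * x - Wo w) / 3 ^ w.length)) = i := by
  induction w with
  | nil =>
    intro x _ _ s hs
    have : s = 0 := by simpa using hs
    subst this
    exact ⟨0, by simp, by simp, by simp [cod]⟩
  | cons e w ih =>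
    intro x hw h s hs
    obtain ⟨b, hb, hd, hq⟩ := word_cons h
    have hw' : ∀ e ∈ w, 1 ≤ e := fun e he => hw e (List.mem_cons_of_mem _ he)
    have he : 1 ≤ e := hw e List.mem_cons_self
    rw [hq]
    rw [List.sum_cons] at hs
    have hr := endpoint_reach hw' hd
    by_cases hse : s < e
    · refine ⟨0, by simp, by simp, ?_⟩
      have h1 : (e :: w).sum - s = (e - s) + w.sum := by rw [List.sum_cons]; omega
      rw [h1, Function.iterate_add_apply, hr]
      have h2 : fT^[e - s] b = 2 ^ s * x := by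
        obtain ⟨d, hd⟩ : ∃ d, e = s + d + 1 := ⟨e - s - 1, by omega⟩
        have h3 : e - s = d + 1 := by omega
        rw [h3, Function.iterate_succ_apply]
        have h4 : (2 : ℤ) ^ e * x = 2 * (2 ^ d * (2 ^ s * x)) := by rw [hd]; ring
        rw [h4] at hb
        rw [fT_odd (by omega)]
        have h5 : (3 * b + 1) / 2 = 2 ^ d * (2 ^ s * x) := by omega
        rw [h5, fT_halve]
      rw [h2, cod_halve]
    · rw [not_lt] at hse
      obtain ⟨s', rfl⟩ : ∃ s', s = s' + e := ⟨s - e, by omega⟩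
      obtain ⟨i, hi1, hi2, hi3⟩ := ih b hw' hd s' (by omega)
      refine ⟨i + 1, by rw [List.length_cons]; omega, ?_, ?_⟩
      · rw [List.take_succ_cons, List.sum_cons]; omega
      · have h1 : (e :: w).sum - (s' + e) = w.sum - s' := by rw [List.sum_cons]; omega
        rw [h1, cod_add, hi3, ← Function.iterate_add_apply,
          show s' + (w.sum - s') = w.sum by omega, hr, cod_letter he hb]

/-- log estimates -/
theorem log3_le : Real.log 3 ≤ 27 / 17 * Real.log 2 := by
  have h : Real.log ((3 : ℝ) ^ 17) ≤ Real.log ((2 : ℝ) ^ 27) :=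
    Real.log_le_log (by positivity) (by norm_num)
  rw [Real.log_pow, Real.log_pow] at h
  push_cast at h
  linarith

theorem remaining {N0 : ℕ} {w : List ℕ} {x : ℤ} {Y c : ℝ} (hw : ∀ e ∈ w, 1 ≤ e)
    (hv : (3 : ℤ) ^ w.length ∣ 2 ^ w.sum * x - Wo w) (hn : Nice N0 w)
    (hY : (2 : ℝ) ^ w.sum ≤ Y * 3 ^ w.length) (z : ℤ)
    (hz : z = (2 ^ w.sum * x - Wo w) / 3 ^ w.length) (hz0 : 0 < z) (hc : 0 < c)
    (hzY : c * Y ≤ z) (s : ℕ) (hs : s ≤ w.sum) :
    (s : ℝ) ≤ 8 * (Real.log ((fT^[w.sum - s] z : ℤ) : ℝ) + (N0 * Real.log 3 - Real.log c)) := by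
  obtain ⟨i, hi1, hi2, hi3⟩ := last_cod w x hw hv s hs
  rw [← hz] at hi3
  set y := fT^[w.sum - s] z with hy
  have hy0 : 0 < y := (fT_iter_pos_iff _ _).2 hz0
  -- the number of odd steps before
  have h1 : cod w.sum z = w.length := by rw [hz]; exact endpoint_cod hw hv
  have h2 : w.sum = (w.sum - s) + s := by omega
  have h3 : cod (w.sum - s) z + i = w.length := by
    rw [h2, cod_add, ← hy, hi3] at h1
    exact h1
  have h4 := pow_cod (w.sum - s) z hz0
  rw [← hy] at h4
  -- real inequality `z 2^s ≤ y Y 3^i`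
  have hyR : (0 : ℝ) < y := by exact_mod_cast hy0
  have hzR : (0 : ℝ) < z := by exact_mod_cast hz0
  have h4' : (3 : ℝ) ^ cod (w.sum - s) z * z ≤ 2 ^ (w.sum - s) * y := by exact_mod_cast h4
  have hYpos : 0 < Y := by
    by_contra hcon
    have h5 : (0 : ℝ) < 2 ^ w.sum := by positivity
    have h6 : Y * 3 ^ w.length ≤ 0 := mul_nonpos_of_nonpos_of_nonneg (not_lt.1 hcon) (by positivity)
    linarith
  have h5 : (z : ℝ) * 2 ^ s ≤ y * Y * 3 ^ i := by
    have h6 : (3 : ℝ) ^ w.length * (z * 2 ^ s) ≤ 3 ^ w.length * (y * Y * 3 ^ i) := by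
      calc (3 : ℝ) ^ w.length * (z * 2 ^ s)
          = 3 ^ i * 2 ^ s * (3 ^ cod (w.sum - s) z * z) := by rw [← h3, pow_add]; ring
        _ ≤ 3 ^ i * 2 ^ s * (2 ^ (w.sum - s) * y) := mul_le_mul_of_nonneg_left h4' (by positivity)
        _ = 3 ^ i * y * 2 ^ w.sum := by
            have e1 : (2 : ℝ) ^ w.sum = 2 ^ (w.sum - s) * 2 ^ s := by rw [← pow_add]; congr 1
            rw [e1]; ring
        _ ≤ 3 ^ i * y * (Y * 3 ^ w.length) := mul_le_mul_of_nonneg_left hY (by positivity)
        _ = _ := by ring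
    exact le_of_mul_le_mul_left h6 (by positivity)
  have hi : 39 * i ≤ 39 * N0 + 20 * s := by
    by_cases hiN : N0 ≤ i
    · have := (hn i hiN hi1).1
      omega
    · omega
  have hiR : (39 : ℝ) * i ≤ 39 * N0 + 20 * s := by exact_mod_cast hi
  -- logarithms
  have h6 := Real.log_le_log (by positivity) h5
  rw [Real.log_mul hzR.ne' (by positivity), Real.log_mul (by positivity) (by positivity),
    Real.log_mul hyR.ne' hYpos.ne', Real.log_pow, Real.log_pow] at h6
  have h7 := Real.log_le_log (by positivity) hzY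
  rw [Real.log_mul hc.ne' hYpos.ne'] at h7
  have h8 := log3_le
  have h9 : 0 < Real.log 2 := Real.log_pos (by norm_num)
  have h10 : 0 < Real.log 3 := Real.log_pos (by norm_num)
  have h11 := Real.log_two_gt_d9
  have hs0 : (0 : ℝ) ≤ s := by positivity
  -- `s (log 2 - 20/39 log 3) ≤ ...`
  have h12 : (s : ℝ) * (1 / 8) ≤ s * (Real.log 2 - 20 / 39 * Real.log 3) := by
    apply mul_le_mul_of_nonneg_left _ hs0
    linarith
  have h13 : (i : ℝ) * Real.log 3 ≤ (N0 + 20 / 39 * s) * Real.log 3 := by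
    apply mul_le_mul_of_nonneg_right _ h10.le
    linarith
  linarith

/-- positive lower density of the integers reaching `1` along a nice path -/
theorem base : ∃ (x k0 : ℕ) (c Cst X0 : ℝ), 0 < c ∧ 0 ≤ Cst ∧ 1 ≤ x ∧ TN^[k0] x = 1 ∧
    ∀ X : ℝ, X0 ≤ X → ∃ S : Finset ℕ, (∀ n ∈ S, 1 ≤ n ∧ c * X ≤ n ∧ (n : ℝ) ≤ X ∧
      ∃ t : ℕ, TN^[t] n = x ∧
        ∀ s ≤ t, (s : ℝ) ≤ 8 * (Real.log ((TN^[t - s] n : ℕ) : ℝ) + Cst)) ∧
      c * X ≤ S.card := by
  classical
  obtain ⟨j, hj⟩ := exists_nonperiodic (a := 1) (by norm_num)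
  obtain ⟨N0, N, r, hN0, hN1, hr, hU⟩ := good_class
  have hja : ¬ (3 : ℤ) ∣ 2 ^ j * 1 := by
    intro h
    have hc : IsCoprime (3 : ℤ) (2 ^ j) := IsCoprime.pow_right (by norm_num)
    have := hc.dvd_of_dvd_mul_left h
    norm_num at this
  obtain ⟨x, k, hk, hx⟩ := hit N r (2 ^ j * 1) hr hja
  have hxp : ∀ m, 1 ≤ m → fT^[m] x ≠ x := by
    intro m hm h
    apply hj m hm
    rw [← hk, ← Function.iterate_add_apply, add_comm, Function.iterate_add_apply, h]
  have hx0 : 0 < x := by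
    rw [← fT_iter_pos_iff k, hk]; positivity
  obtain ⟨K, hK2, hK⟩ := Cnt.count_uniform quenched hN0
  have hxR : (0 : ℝ) < x := by exact_mod_cast hx0
  set c : ℝ := 1 / (128 * x) with hc
  have hc0 : 0 < c := by positivity
  have hx1 : 1 ≤ (x : ℝ) := by exact_mod_cast hx0
  have hxn : ((x.toNat : ℕ) : ℤ) = x := Int.toNat_of_nonneg hx0.le
  have hlog128 : 0 ≤ Real.log 128 := Real.log_nonneg (by norm_num)
  have hlog3 : 0 ≤ Real.log 3 := Real.log_nonneg (by norm_num)
  refine ⟨x.toNat, j + k, c, N0 * Real.log 3 - Real.log (1 / 128), K * x, hc0, ?_, by omega, ?_, ?_⟩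
  · rw [one_div, Real.log_inv]
    have : (0 : ℝ) ≤ N0 * Real.log 3 := by positivity
    linarith
  · have h1 : ((TN^[j + k] x.toNat : ℕ) : ℤ) = 1 := by
      rw [TN_iter, hxn, Function.iterate_add_apply, hk, fT_halve]
    exact_mod_cast h1
  intro X hX
  set Y : ℝ := X / x with hYd
  have hYK : K ≤ Y := by rw [hYd, le_div_iff₀ hxR]; exact hX
  have hY0 : 0 < Y := by linarith
  have hX0 : 0 < X := by
    have : X = Y * x := by rw [hYd]; field_simp
    rw [this]; positivity
  obtain ⟨S0, hS0, hcard⟩ := hK x (hU x hx) Y hYK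
  set f : List ℕ → ℤ := fun w => (2 ^ w.sum * x - Wo w) / 3 ^ w.length with hf
  have hreach : ∀ w ∈ S0, fT^[w.sum] (f w) = x := fun w hw =>
    endpoint_reach (hS0 w hw).1 (hS0 w hw).2.1
  have hpos : ∀ w ∈ S0, 0 < f w := by
    intro w hw
    rw [← fT_iter_pos_iff w.sum, hreach w hw]
    exact hx0
  have hleX : ∀ w ∈ S0, ((f w : ℤ) : ℝ) ≤ X := by
    intro w hw
    obtain ⟨_, h2, _, _, _, _, _, h8, _⟩ := hS0 w hw
    have h9 := Int.ediv_mul_cancel h2
    have h10 : f w * 3 ^ w.length ≤ 2 ^ w.sum * x := by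
      rw [hf]
      simp only
      rw [h9]
      have : (0 : ℤ) ≤ Wo w := by positivity
      linarith
    have h11 : ((f w : ℤ) : ℝ) * 3 ^ w.length ≤ 2 ^ w.sum * x := by exact_mod_cast h10
    have h12 : ((f w : ℤ) : ℝ) * 3 ^ w.length ≤ X * 3 ^ w.length := by
      calc _ ≤ (2 : ℝ) ^ w.sum * x := h11
        _ ≤ (Y * 3 ^ w.length) * x := mul_le_mul_of_nonneg_right h8 hxR.le
        _ = X * 3 ^ w.length := by rw [hYd]; field_simp
    exact le_of_mul_le_mul_right h12 (by positivity)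
  set S1 := S0.image (fun w => (f w).toNat) with hS1
  have hS1card : S1.card = S0.card := by
    apply Finset.card_image_of_injOn
    intro w hw w' hw' he
    have h1 := hpos w hw
    have h2 := hpos w' hw'
    have he' : f w = f w' := by
      simp only at he
      omega
    exact endpoint_inj_of woInjStmt hxp (hS0 w hw).1 (hS0 w' hw').1 (hS0 w hw).2.1
      (hS0 w' hw').2.1 he'
  refine ⟨S1.filter (fun n => c * X ≤ (n : ℝ)), ?_, ?_⟩
  · intro n hn
    rw [Finset.mem_filter] at hn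
    obtain ⟨hn1, hn2⟩ := hn
    obtain ⟨w, hw, rfl⟩ := Finset.mem_image.1 hn1
    have hz0 := hpos w hw
    have hzn : (((f w).toNat : ℕ) : ℤ) = f w := Int.toNat_of_nonneg hz0.le
    have hznR : (((f w).toNat : ℕ) : ℝ) = ((f w : ℤ) : ℝ) := by exact_mod_cast hzn
    refine ⟨by omega, hn2, by rw [hznR]; exact hleX w hw, w.sum, ?_, ?_⟩
    · have h1 : ((TN^[w.sum] (f w).toNat : ℕ) : ℤ) = x := by
        rw [TN_iter, hzn, hreach w hw]
      omega
    · intro s hs
      obtain ⟨g1, g2, _, g4, _, _, _, g8, _⟩ := hS0 w hw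
      have h1 := remaining (c := 1 / 128) g1 g2 g4 g8 (f w) rfl hz0 (by norm_num) (by
        rw [← hznR]
        have : 1 / 128 * Y = c * X := by rw [hYd, hc]; field_simp
        rw [this]; exact hn2) s hs
      have h2 : (((TN^[w.sum - s] (f w).toNat : ℕ)) : ℝ) = ((fT^[w.sum - s] (f w) : ℤ) : ℝ) := by
        have := TN_iter (w.sum - s) (f w).toNat
        rw [hzn] at this
        exact_mod_cast this
      rw [h2]
      exact h1
  · have h1 : (S1.filter (fun n : ℕ => ¬ c * X ≤ (n : ℝ))).card ≤ c * X := by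
      have h2 : S1.filter (fun n : ℕ => ¬ c * X ≤ (n : ℝ)) ⊆ Finset.Icc 1 ⌊c * X⌋₊ := by
        intro n hn
        rw [Finset.mem_filter, not_le] at hn
        obtain ⟨w, hw, rfl⟩ := Finset.mem_image.1 hn.1
        have hz0 := hpos w hw
        rw [Finset.mem_Icc]
        exact ⟨by omega, Nat.le_floor hn.2.le⟩
      have h3 := Finset.card_le_card h2
      rw [Nat.card_Icc] at h3
      have h4 : ((⌊c * X⌋₊ : ℕ) : ℝ) ≤ c * X := Nat.floor_le (by positivity)
      have h5 : ((S1.filter (fun n : ℕ => ¬ c * X ≤ (n : ℝ))).card : ℝ) ≤ (⌊c * X⌋₊ : ℕ) := by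
        exact_mod_cast (by omega : (S1.filter (fun n : ℕ => ¬ c * X ≤ (n : ℝ))).card ≤ ⌊c * X⌋₊)
      linarith
    have h2 := Finset.card_filter_add_card_filter_not (s := S1) (fun n : ℕ => c * X ≤ (n : ℝ))
    have h3 : ((S1.filter (fun n : ℕ => c * X ≤ (n : ℝ))).card : ℝ) +
        (S1.filter (fun n : ℕ => ¬ c * X ≤ (n : ℝ))).card = S0.card := by
      rw [← hS1card]; exact_mod_cast h2
    have h4 : Y / 64 = 2 * (c * X) := by rw [hYd, hc]; field_simp; norm_num
    linarith

end Pool.Agent.H363R2
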