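import Pool.Agent.H363R2.LinBase
import Pool.Agent.H363R2.Desc

set_option autoImplicit false

/-! Positive lower density of integers reaching `1` in the expected time, with a small maximum. -/

namespace Pool.Agent.H363R2
open Finset Filter

theorem TN_le (i : ℕ) : ∀ y : ℕ, 1 ≤ y → TN^[i] y ≤ 2 ^ i * y ∧ 1 ≤ TN^[i] y := by
  induction i with
  | zero => intro y hy; simpa using hy
  | succ i ih =>
    intro y hy
    have h1 : TN y ≤ 2 * y ∧ 1 ≤ TN y := by
      unfold TN
      split_ifs <;> constructor <;> omega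
    obtain ⟨h2, h3⟩ := ih (TN y) h1.2
    rw [Function.iterate_succ_apply]
    refine ⟨?_, h3⟩
    calc _ ≤ 2 ^ i * TN y := h2
      _ ≤ 2 ^ i * (2 * y) := Nat.mul_le_mul_left _ h1.1
      _ = _ := by ring

theorem TN_one (i : ℕ) : TN^[i] 1 ≤ 2 := by
  have h : ∀ i : ℕ, TN^[i] 1 = 1 ∨ TN^[i] 1 = 2 := by
    intro i
    induction i with
    | zero => left; rfl
    | succ i ih =>
      rw [Function.iterate_succ_apply']
      rcases ih with h | h
      · rw [h]; right; rfl
      · rw [h]; left; rfl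
  rcases h i with h | h <;> omega

/-- the orbit of a number reaching `1` is bounded -/
theorem TN_bdd {x k : ℕ} (hx : 1 ≤ x) (hk : TN^[k] x = 1) (i : ℕ) :
    TN^[i] x ≤ 2 ^ (k + 1) * x := by
  by_cases hi : i ≤ k
  · calc TN^[i] x ≤ 2 ^ i * x := (TN_le i x hx).1
      _ ≤ 2 ^ (k + 1) * x := Nat.mul_le_mul_right _ (Nat.pow_le_pow_right (by norm_num) (by omega))
  · obtain ⟨d, rfl⟩ : ∃ d, i = d + k := ⟨i - k, by omega⟩
    rw [Function.iterate_add_apply, hk]
    calc TN^[d] 1 ≤ 2 := TN_one d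
      _ = 2 * 1 := by norm_num
      _ ≤ 2 ^ (k + 1) * x := Nat.mul_le_mul (by
          calc 2 = 2 ^ 1 := by norm_num
            _ ≤ 2 ^ (k + 1) := Nat.pow_le_pow_right (by norm_num) (by omega)) hx

theorem sharp (ε : ℝ) (hε : 0 < ε) : ∃ c : ℝ, 0 < c ∧ ∃ X0 : ℝ, ∀ X : ℝ, X0 ≤ X →
    ∃ S : Finset ℕ, (∀ n ∈ S, 1 ≤ n ∧ c * X ≤ n ∧ (n : ℝ) ≤ X ∧ ∃ t : ℕ, TN^[t] n = 1 ∧
      (∀ j < t, TN^[j] n ≠ 1) ∧
      |(t : ℝ) - 2 / Real.log (4 / 3) * Real.log n| ≤ ε * Real.log n ∧
      ∀ j : ℕ, ((TN^[j] n : ℕ) : ℝ) ≤ n * Real.log n ^ 6) ∧ c * X ≤ S.card := by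
  classical
  obtain ⟨x, k0, c, Cst, X1, hc, hCst, hx, hk0, hbase⟩ := base
  have hμ : 0 < Real.log (4 / 3) := Real.log_pos (by norm_num)
  set γ : ℝ := 2 / Real.log (4 / 3) with hγ
  have hγ0 : 0 < γ := by positivity
  -- small parameter
  set δ : ℝ := min (1 / 4) (ε / (8 * (1 + γ))) with hδ
  have hδ0 : 0 < δ := lt_min (by norm_num) (by positivity)
  have hδ4 : δ ≤ 1 / 4 := min_le_left _ _
  have hδe : 8 * (1 + γ) * δ ≤ ε := by
    calc 8 * (1 + γ) * δ ≤ 8 * (1 + γ) * (ε / (8 * (1 + γ))) :=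
          mul_le_mul_of_nonneg_left (min_le_right _ _) (by positivity)
      _ = ε := by field_simp
  have hγδ : 0 < γ * δ := by positivity
  obtain ⟨B, hB⟩ := Desc.result δ (1 / 2) hδ0 (by norm_num)
  rw [eventually_atTop] at hB
  obtain ⟨X2, hB⟩ := hB
  -- conditions on `log X`
  have hlim : ∀ᶠ L : ℝ in atTop, 8 * (|B| * Real.log L + Cst) + k0 +
      (|B| * Real.log L + (8 * (|B| * Real.log L + Cst)) * Real.log 2) +
      (Real.log (2 ^ (k0 + 1) * x)) + γ * |Real.log c| + |Real.log c| ≤ δ * L := by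
    have h1 : Tendsto (fun L : ℝ => (8 * (|B| * Real.log L + Cst) + k0 +
      (|B| * Real.log L + (8 * (|B| * Real.log L + Cst)) * Real.log 2) +
      (Real.log (2 ^ (k0 + 1) * x)) + γ * |Real.log c| + |Real.log c|) / L) atTop (nhds 0) := by
      have h2 : Tendsto (fun L : ℝ => Real.log L / L) atTop (nhds 0) := by
        have := Real.isLittleO_log_id_atTop.tendsto_div_nhds_zero
        simpa using this
      have h3 : Tendsto (fun L : ℝ => 1 / L) atTop (nhds 0) := by
        simpa using tendsto_inv_atTop_zero (𝕜 := ℝ)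
      have h4 := (h2.const_mul (8 * |B| + |B| + 8 * |B| * Real.log 2)).add
        (h3.const_mul (8 * Cst + k0 + 8 * Cst * Real.log 2 + Real.log (2 ^ (k0 + 1) * x) +
          γ * |Real.log c| + |Real.log c|))
      simp only [mul_zero, add_zero] at h4
      refine h4.congr fun L => ?_
      ring
    have h5 := h1.eventually (gt_mem_nhds hδ0)
    filter_upwards [h5, eventually_gt_atTop 0] with L hL hL0
    rw [div_lt_iff₀ hL0] at hL
    exact hL.le
  have hlim2 : ∀ᶠ L : ℝ in atTop, 2 * (|Real.log c| + 6 * Real.log (4 / 3)) ≤ Real.log L ∧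
      (2 / c) ^ 2 ≤ L := (Real.tendsto_log_atTop.eventually_ge_atTop _).and
        (eventually_ge_atTop _)
  have hlim' := hlim.and hlim2
  clear hlim hlim2
  rw [eventually_atTop] at hlim'
  obtain ⟨L0, hlim⟩ := hlim'
  refine ⟨c / 2, by positivity, max (max X1 X2) (Real.exp (max L0 (2 / c + 1))), fun X hX => ?_⟩
  have hX1 : X1 ≤ X := ((le_max_left _ _).trans (le_max_left _ _)).trans hX
  have hX2 : X2 ≤ X := ((le_max_right _ _).trans (le_max_left _ _)).trans hX
  have hX3 : Real.exp (max L0 (2 / c + 1)) ≤ X := (le_max_right _ _).trans hX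
  have hXpos : 0 < X := (Real.exp_pos _).trans_le hX3
  set L : ℝ := Real.log X with hL
  have hLL : max L0 (2 / c + 1) ≤ L := (Real.le_log_iff_exp_le hXpos).2 hX3
  have hL0 : L0 ≤ L := (le_max_left _ _).trans hLL
  have hLc : 2 / c + 1 ≤ L := (le_max_right _ _).trans hLL
  have h2c : 0 < 2 / c := by positivity
  have hL1 : 1 ≤ L := by linarith
  have hLpos : 0 < L := by linarith
  obtain ⟨hsmall, hlc, hcL2⟩ := hlim L hL0
  have hlogL : 0 ≤ Real.log L := Real.log_nonneg hL1
  obtain ⟨S, hS, hcard⟩ := hbase X hX1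
  set P : ℕ → Prop := fun n => ∃ m : ℕ, ((TN^[m] n : ℕ) : ℝ) ≤ L ^ B ∧
        |(m : ℝ) - γ * L| ≤ δ * L ∧
        ∀ j ≤ m, |Real.log (TN^[j] n : ℕ) - (L - j / 2 * Real.log (4 / 3))| ≤ δ * L ∧
          ((TN^[j] n : ℕ) : ℝ) ≤ X * L ^ (1 / 2 + 5 : ℝ) with hP
  have hexc : (Set.ncard {n : ℕ | 1 ≤ n ∧ (n : ℝ) ≤ X ∧ ¬ P n} : ℝ) ≤ X / L ^ (1 / 2 : ℝ) :=
    hB X hX2
  have hfin : {n : ℕ | 1 ≤ n ∧ (n : ℝ) ≤ X ∧ ¬ P n}.Finite := by
    apply (Set.finite_Iic ⌊X⌋₊).subset
    intro n hn
    exact Nat.le_floor hn.2.1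
  refine ⟨S.filter P, ?_, ?_⟩
  · intro n hn
    rw [Finset.mem_filter] at hn
    obtain ⟨hnS, m, hm1, hm2, hm3⟩ := hn
    obtain ⟨hn1, hn2, hn3, t0, ht0, hs⟩ := hS n hnS
    have hnR : (0 : ℝ) < n := by exact_mod_cast hn1
    have hlogn : Real.log n ≤ L := Real.log_le_log hnR hn3
    have hlogn' : L - |Real.log c| ≤ Real.log n := by
      have h1 := Real.log_le_log (by positivity) hn2
      rw [Real.log_mul hc.ne' hXpos.ne'] at h1
      have h2 := neg_abs_le (Real.log c)
      linarith
    have htot : TN^[k0 + t0] n = 1 := by rw [Function.iterate_add_apply, ht0, hk0]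
    have hex : ∃ t, TN^[t] n = 1 := ⟨_, htot⟩
    have hm2' := abs_le.1 hm2
    -- log of `TN^[m] n`
    have hlm : Real.log ((TN^[m] n : ℕ) : ℝ) ≤ |B| * Real.log L := by
      have h1 : (0 : ℝ) < ((TN^[m] n : ℕ) : ℝ) := by exact_mod_cast (TN_le m n hn1).2
      have h2 := Real.log_le_log h1 hm1
      rw [Real.log_rpow hLpos] at h2
      exact h2.trans (mul_le_mul_of_nonneg_right (le_abs_self B) hlogL)
    -- the length of the end
    have hend : (t0 : ℝ) - m ≤ 8 * (|B| * Real.log L + Cst) := by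
      by_cases h : t0 ≤ m
      · have h1 : (t0 : ℝ) ≤ m := by exact_mod_cast h
        have h2 : 0 ≤ 8 * (|B| * Real.log L + Cst) := by positivity
        linarith
      · have h1 := hs (t0 - m) (by omega)
        rw [show t0 - (t0 - m) = m by omega, Nat.cast_sub (by omega)] at h1
        linarith
    have hk00 : (0 : ℝ) ≤ k0 := by positivity
    have hBl : 0 ≤ |B| * Real.log L := by positivity
    have hlog2 : 0 < Real.log 2 := Real.log_pos (by norm_num)
    have h8 : 0 ≤ 8 * (|B| * Real.log L + Cst) := by positivity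
    have h9 : 0 ≤ (8 * (|B| * Real.log L + Cst)) * Real.log 2 := by positivity
    have hx1 : (1 : ℝ) ≤ x := by exact_mod_cast hx
    have h10 : 0 ≤ Real.log (2 ^ (k0 + 1) * x) := by
      apply Real.log_nonneg
      exact one_le_mul_of_one_le_of_one_le (one_le_pow₀ (by norm_num)) hx1
    have h11 : 0 ≤ γ * |Real.log c| := by positivity
    have h12 : 0 ≤ |Real.log c| := abs_nonneg _
    have hδL : 0 ≤ δ * L := by positivity
    have hcL : |Real.log c| ≤ δ * L := by linarith
    have hγcL : γ * |Real.log c| ≤ δ * L := by linarith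
    have hL4 : δ * L ≤ 1 / 4 * L := mul_le_mul_of_nonneg_right hδ4 hLpos.le
    have hLn : L ≤ 4 / 3 * Real.log n := by linarith
    have hlogn0 : 0 < Real.log n := by linarith
    have hδLn : δ * L ≤ δ * (4 / 3 * Real.log n) := mul_le_mul_of_nonneg_left hLn hδ0.le
    refine ⟨hn1, by linarith [mul_pos hc hXpos], hn3, Nat.find hex, Nat.find_spec hex,
      fun j hj => Nat.find_min hex hj, ?_, ?_⟩
    · -- the time
      set t := Nat.find hex with ht
      have htle : t ≤ k0 + t0 := Nat.find_min' hex htot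
      have hup : (t : ℝ) ≤ γ * L + 2 * (δ * L) := by
        have h1 : (t : ℝ) ≤ k0 + t0 := by exact_mod_cast htle
        linarith
      have hlo : γ * L - (1 + γ) * (δ * L) ≤ t := by
        by_cases h : t ≤ m
        · have h1 := abs_le.1 (hm3 t h).1
          rw [Nat.find_spec hex] at h1
          simp only [Nat.cast_one, Real.log_one] at h1
          have h2 : L - δ * L ≤ t / 2 * Real.log (4 / 3) := by linarith [h1.1]
          have h3 : (t : ℝ) = γ * (t / 2 * Real.log (4 / 3)) := by
            rw [hγ]; field_simp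
          have h4 := mul_le_mul_of_nonneg_left h2 hγ0.le
          rw [← h3] at h4
          linarith
        · have h1 : (m : ℝ) ≤ t := by exact_mod_cast (not_le.1 h).le
          have h2 : 0 ≤ γ * (δ * L) := by positivity
          linarith [hm2'.1]
      have h1 : γ * L - γ * |Real.log c| ≤ γ * Real.log n := by
        have := mul_le_mul_of_nonneg_left hlogn' hγ0.le
        linarith
      have h2 : γ * Real.log n ≤ γ * L := mul_le_mul_of_nonneg_left hlogn hγ0.le
      have h3 : 8 * (1 + γ) * δ * Real.log n ≤ ε * Real.log n :=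
        mul_le_mul_of_nonneg_right hδe hlogn0.le
      have h4 : (1 + γ) * (δ * L) ≤ (1 + γ) * (δ * (4 / 3 * Real.log n)) :=
        mul_le_mul_of_nonneg_left hδLn (by positivity)
      have h5 : 0 < δ * Real.log n := by positivity
      have h6 : 0 < γ * δ * Real.log n := by positivity
      rw [abs_le]
      constructor
      · linarith
      · linarith
    · intro j
      have hj0 : (0 : ℝ) < ((TN^[j] n : ℕ) : ℝ) := by exact_mod_cast (TN_le j n hn1).2
      have hlln : Real.log L - Real.log (4 / 3) ≤ Real.log (Real.log n) := by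
        have h1 := Real.log_le_log hLpos hLn
        rw [Real.log_mul (by norm_num) hlogn0.ne'] at h1
        linarith
      have hll0 : 0 ≤ Real.log (Real.log n) := by linarith
      have key : Real.log ((TN^[j] n : ℕ) : ℝ) ≤ Real.log n + 6 * Real.log (Real.log n) := by
        by_cases hjm : j ≤ m
        · have h1 := Real.log_le_log hj0 (hm3 j hjm).2
          rw [Real.log_mul hXpos.ne' (by positivity), Real.log_rpow hLpos, ← hL] at h1
          linarith
        · rw [not_le] at hjm
          have hsm : δ * L ≤ Real.log n + 6 * Real.log (Real.log n) := by linarith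
          refine le_trans ?_ hsm
          by_cases hjt : j ≤ t0
          · have h1 : TN^[j] n = TN^[j - m] (TN^[m] n) := by
              rw [← Function.iterate_add_apply]; congr 2; omega
            have h2 := (TN_le (j - m) (TN^[m] n) (TN_le m n hn1).2).1
            rw [← h1] at h2
            have h3 : ((TN^[j] n : ℕ) : ℝ) ≤ 2 ^ (j - m) * ((TN^[m] n : ℕ) : ℝ) := by
              exact_mod_cast h2
            have hm0 : (0 : ℝ) < ((TN^[m] n : ℕ) : ℝ) := by exact_mod_cast (TN_le m n hn1).2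
            have h4 := Real.log_le_log hj0 h3
            rw [Real.log_mul (by positivity) hm0.ne', Real.log_pow] at h4
            have h5 : ((j - m : ℕ) : ℝ) ≤ (t0 : ℝ) - m := by
              rw [Nat.cast_sub hjm.le]
              have : (j : ℝ) ≤ t0 := by exact_mod_cast hjt
              linarith
            have h6 : ((j - m : ℕ) : ℝ) * Real.log 2 ≤
                (8 * (|B| * Real.log L + Cst)) * Real.log 2 :=
              mul_le_mul_of_nonneg_right (h5.trans hend) hlog2.le
            linarith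
          · rw [not_le] at hjt
            have h1 : TN^[j] n = TN^[j - t0] x := by
              rw [← ht0, ← Function.iterate_add_apply]; congr 2; omega
            have h2 : TN^[j] n ≤ 2 ^ (k0 + 1) * x := by
              rw [h1]; exact TN_bdd hx hk0 _
            have h3 : ((TN^[j] n : ℕ) : ℝ) ≤ 2 ^ (k0 + 1) * (x : ℝ) := by exact_mod_cast h2
            have h4 := Real.log_le_log hj0 h3
            linarith
      have h1 : Real.log ((TN^[j] n : ℕ) : ℝ) ≤ Real.log (n * Real.log n ^ 6) := by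
        rw [Real.log_mul hnR.ne' (by positivity), Real.log_pow]
        push_cast
        exact key
      exact (Real.log_le_log_iff hj0 (by positivity)).1 h1
  · have h1 := Finset.card_filter_add_card_filter_not (s := S) P
    have h2 : ((S.filter (fun n => ¬ P n)).card : ℝ) ≤
        (Set.ncard {n : ℕ | 1 ≤ n ∧ (n : ℝ) ≤ X ∧ ¬ P n} : ℝ) := by
      have h3 : ((S.filter (fun n => ¬ P n) : Finset ℕ) : Set ℕ) ⊆
          {n : ℕ | 1 ≤ n ∧ (n : ℝ) ≤ X ∧ ¬ P n} := by
        intro n hn
        rw [Finset.mem_coe, Finset.mem_filter] at hn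
        obtain ⟨g1, _, g3, _⟩ := hS n hn.1
        exact ⟨g1, g3, hn.2⟩
      have h4 := Set.ncard_le_ncard h3 hfin
      rw [Set.ncard_coe_finset] at h4
      exact_mod_cast h4
    have h3 : ((S.filter P).card : ℝ) + (S.filter (fun n => ¬ P n)).card = S.card := by
      exact_mod_cast h1
    have h4 : X / L ^ (1 / 2 : ℝ) ≤ c / 2 * X := by
      have hs : 2 / c ≤ L ^ (1 / 2 : ℝ) := by
        rw [← Real.sqrt_eq_rpow]
        exact Real.le_sqrt_of_sq_le hcL2
      rw [div_le_iff₀ (by positivity)]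
      have h5 : 1 ≤ c / 2 * L ^ (1 / 2 : ℝ) := by
        have : c / 2 * (2 / c) ≤ c / 2 * L ^ (1 / 2 : ℝ) :=
          mul_le_mul_of_nonneg_left hs (by positivity)
        have e : c / 2 * (2 / c) = 1 := by field_simp
        linarith
      calc X = X * 1 := (mul_one X).symm
        _ ≤ X * (c / 2 * L ^ (1 / 2 : ℝ)) := mul_le_mul_of_nonneg_left h5 hXpos.le
        _ = _ := by ring
    linarith

end Pool.Agent.H363R2
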